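import Pool.Agent.Work.MP_ffcd14_ag.Cyc.VarDim
import Pool.Agent.Work.MP_34725c_ag.Regular

/-!
# The components of a smooth variety

Plan.  `cmp_disj`: take a chart `ς` at `x` and the equations of `Var.chart_eq`; let `J` be the ideal
they span, `m` the kernel of `eval (hat ς x)`, `S` the localisation at `m` of the quotient by `J`.
Its maximal ideal is generated by `X.dim` elements (`exists_cotangent_gen`, Nakayama), and
`X.dim ≤ ringKrullDim S` (as in the proof of `Var.sdim_top`, `kr_many` gives `Z ∋ x` of dimension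
at least `X.dim` with `J ≤ chI Z ς`; a chain of subvarieties from `{x}` to `Z` by `exists_cover_up`,
`chI_prime`, `chI_anti`, `le_of_chI_le`).  So `S` is a domain
(`MP_34725c_ag.isDomain_of_regular`): there is a prime `p₀ ≥ J` contained in every prime between
`J` and `m`; `p₀ = chI Z ς` (`exists_chI_eq`) with `Z ⊆ X` (as in `Var.sdim_top`), and `c, d ≤ Z`.
`cmp_var`: near `x ∈ c` the sets `c` and `X.pts` agree (finitely many closed components).
-/

open MvPolynomial Topology TopologicalSpace Filter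

namespace Pool.Agent.Work.MP_ffcd14_ag.Chw

universe u

variable {k : Type u} [Field k] [IsAlgClosed k] {P : Amb} {X : Var k P}

/-- `c` is an irreducible component of `X`. -/
def IsCmp (X : Var k P) (c : Sub k P) : Prop :=
  (c : Set (P.Pt k)) ⊆ X.pts ∧ ∀ U : Sub k P, (U : Set (P.Pt k)) ⊆ X.pts → c ≤ U → U = c

/-- A regular point lies on a unique component: algebraic form. -/
theorem Cmp_alg {R : Type u} [CommRing R] [IsNoetherianRing R] (J m : Ideal R) [m.IsPrime]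
    (hJ : J ≤ m) {n : ℕ} (y : Fin n → R) (hy : ∀ i, y i ∈ m)
    (hm : m ≤ J ⊔ Ideal.span (Set.range y) ⊔ m ^ 2)
    (hd : (n : WithBot ℕ∞) ≤
      Order.krullDim {p : PrimeSpectrum R // J ≤ p.asIdeal ∧ p.asIdeal ≤ m}) :
    ∃ p₀ : Ideal R, p₀.IsPrime ∧ J ≤ p₀ ∧ ∀ p : Ideal R, p.IsPrime → J ≤ p → p ≤ m → p₀ ≤ p := by
  let L := Localization.AtPrime m
  let J' : Ideal L := J.map (algebraMap R L)
  have hJ' : J' ≤ IsLocalRing.maximalIdeal L := by
    rw [← Localization.AtPrime.map_eq_maximalIdeal]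
    exact Ideal.map_mono hJ
  have : Nontrivial (L ⧸ J') := Ideal.Quotient.nontrivial_iff.2
    (ne_top_of_le_ne_top Ideal.IsPrime.ne_top' hJ')
  have : IsLocalRing (L ⧸ J') :=
    IsLocalRing.of_surjective' (Ideal.Quotient.mk _) Ideal.Quotient.mk_surjective
  let φ : R →+* L ⧸ J' := (Ideal.Quotient.mk J').comp (algebraMap R L)
  have key : ∀ p : Ideal R, p.IsPrime → J ≤ p → p ≤ m →
      (p.map φ).IsPrime ∧ (p.map φ).comap φ = p := by
    intro p hp h1 h2
    have hdj : Disjoint (m.primeCompl : Set R) p :=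
      Set.disjoint_left.2 fun a ha ha' => ha (h2 ha')
    have := IsLocalization.isPrime_of_isPrime_disjoint m.primeCompl L p hp hdj
    have h3 : RingHom.ker (Ideal.Quotient.mk J') ≤ p.map (algebraMap R L) := by
      rw [Ideal.mk_ker]
      exact Ideal.map_mono h1
    rw [← Ideal.map_map, ← Ideal.comap_comap]
    refine ⟨Ideal.map_isPrime_of_surjective Ideal.Quotient.mk_surjective h3, ?_⟩
    rw [Ideal.comap_map_of_surjective _ Ideal.Quotient.mk_surjective, ← RingHom.ker_eq_comap_bot,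
      sup_eq_left.2 h3]
    exact IsLocalization.under_map_of_isPrime_disjoint m.primeCompl L hp hdj
  have hmax : m.map φ = IsLocalRing.maximalIdeal (L ⧸ J') := by
    rw [← Ideal.map_map, Localization.AtPrime.map_eq_maximalIdeal,
      IsLocalRing.map_maximalIdeal_of_surjective _ Ideal.Quotient.mk_surjective]
  have hJφ : J.map φ = ⊥ := by
    rw [← Ideal.map_map]
    exact Ideal.map_quotient_self J'
  have hgen : Ideal.ofList (List.ofFn fun i => φ (y i)) = IsLocalRing.maximalIdeal (L ⧸ J') := by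
    have e : Ideal.ofList (List.ofFn fun i => φ (y i)) = (Ideal.span (Set.range y)).map φ := by
      rw [Ideal.map_span, ← Set.range_comp]
      exact congrArg Ideal.span (Set.ext fun z => by simp [List.mem_ofFn'])
    rw [e]
    refine le_antisymm ?_ ?_
    · rw [← hmax]
      exact Ideal.map_mono (Ideal.span_le.2 (by rintro _ ⟨i, rfl⟩; exact hy i))
    · refine Submodule.le_of_le_smul_of_le_jacobson_bot (IsNoetherian.noetherian _)
        (IsLocalRing.maximalIdeal_le_jacobson _) ?_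
      have := Ideal.map_mono (f := φ) hm
      rwa [Ideal.map_sup, Ideal.map_sup, hJφ, bot_sup_eq, Ideal.map_pow, hmax, pow_two] at this
  have hdim : (n : WithBot ℕ∞) ≤ ringKrullDim (L ⧸ J') :=
    hd.trans (Order.krullDim_le_of_strictMono
      (fun p => (⟨p.1.asIdeal.map φ, (key _ p.1.isPrime p.2.1 p.2.2).1⟩ : PrimeSpectrum (L ⧸ J')))
      fun p q hpq => by
        refine lt_of_le_of_ne (Ideal.map_mono hpq.le) fun e => hpq.ne ?_
        have e' : p.1.asIdeal.map φ = q.1.asIdeal.map φ := congrArg PrimeSpectrum.asIdeal e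
        refine Subtype.ext (PrimeSpectrum.ext ?_)
        rw [← (key _ p.1.isPrime p.2.1 p.2.2).2, e', (key _ q.1.isPrime q.2.1 q.2.2).2])
  have := MP_34725c_ag.isDomain_of_regular n (L ⧸ J') _ (List.length_ofFn) hgen hdim
  refine ⟨RingHom.ker φ, RingHom.ker_isPrime φ, ?_, fun p hp h1 h2 => ?_⟩
  · rw [RingHom.ker_eq_comap_bot, ← Ideal.map_le_iff_le_comap, hJφ]
  · rw [← (key p hp h1 h2).2]
    exact Ideal.comap_mono bot_le

/-- A subvariety through `x` gives a chain of primes. -/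
theorem Cmp_chain {x : P.Pt k} {ς : ∀ i, P.σ i} (hς : InCh ς x) {Z : Sub k P} (hx : x ∈ Z)
    {J : Ideal (MvPolynomial P.V k)} (hJ : J ≤ chI (Z : Set (P.Pt k)) ς) {n : ℕ}
    (hn : n ≤ sdim Z) :
    (n : WithBot ℕ∞) ≤ Order.krullDim {p : PrimeSpectrum (MvPolynomial P.V k) //
      J ≤ p.asIdeal ∧ p.asIdeal ≤ RingHom.ker (eval (hat ς x))} := by
  let F : ∀ T : Sub k P, x ∈ T → T ≤ Z → {p : PrimeSpectrum (MvPolynomial P.V k) //
      J ≤ p.asIdeal ∧ p.asIdeal ≤ RingHom.ker (eval (hat ς x))} := fun T h1 h2 =>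
    ⟨⟨chI (T : Set (P.Pt k)) ς, chI_prime ⟨x, h1, hς⟩⟩, hJ.trans (chI_anti h2 ς),
      fun φ hφ => hφ x h1 hς⟩
  have key : ∀ n : ℕ, n ≤ sdim Z → ∃ (T : Sub k P) (h1 : x ∈ T) (h2 : T ≤ Z), sdim T = n ∧
      (n : ℕ∞) ≤ Order.coheight (F T h1 h2) := by
    intro n
    induction n with
    | zero =>
      exact fun _ => ⟨{x}, Set.mem_singleton x, Set.singleton_subset_iff.2 hx, sdim_pt x, by simp⟩
    | succ n ih =>
      intro h
      obtain ⟨T, h1, h2, h3, h4⟩ := ih (by omega)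
      obtain ⟨T', a1, a2, a3⟩ := exists_cover_up
        (lt_of_le_of_ne h2 fun e => by rw [e] at h3; omega)
      refine ⟨T', a1 h1, a2, by omega, ?_⟩
      have a4 : F T' (a1 h1) a2 < F T h1 h2 := by
        refine lt_of_le_not_ge (chI_anti a1 ς) fun e => ?_
        have := sdim_mono (le_of_chI_le ⟨x, h1, hς⟩ ⟨x, a1 h1, hς⟩ e)
        omega
      push_cast
      exact (add_le_add_left h4 1).trans (Order.coheight_add_one_le a4)
  obtain ⟨T, h1, h2, -, h4⟩ := key n hn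
  exact le_trans (by exact_mod_cast h4) (Order.coheight_le_krullDim (F T h1 h2))

/-- Through a point of a smooth variety there is a largest subvariety. -/
theorem Cmp_top (X : Var k P) {x : P.Pt k} (hx : x ∈ X.pts) :
    ∃ Z : Sub k P, (Z : Set (P.Pt k)) ⊆ X.pts ∧
      ∀ U : Sub k P, (U : Set (P.Pt k)) ⊆ X.pts → x ∈ U → U ≤ Z := by
  obtain ⟨ς, hς⟩ := exists_inCh x
  obtain ⟨κ, _, f, g, b, hc, hg, hgx, hf, hloc, hI, hli⟩ := X.chart_eq hx hς
  set e : κ ⊕ P.ι → MvPolynomial P.V k :=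
    Sum.elim (fun j => g * f j) (fun i => MvPolynomial.X ⟨i, ς i⟩ - 1) with he
  have : (RingHom.ker (eval (hat ς x) : MvPolynomial P.V k →+* k)).IsPrime :=
    RingHom.ker_isPrime _
  have hJ : ∀ {p : Ideal (MvPolynomial P.V k)}, (∀ j, e j ∈ p) → Ideal.span (Set.range e) ≤ p :=
    fun h => Ideal.span_le.2 (by rintro _ ⟨j, rfl⟩; exact h j)
  have hJe : ∀ j, e j ∈ Ideal.span (Set.range e) := fun j => Ideal.subset_span ⟨j, rfl⟩
  have hJm : Ideal.span (Set.range e) ≤ RingHom.ker (eval (hat ς x)) := hJ fun j => hI j x hx hς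
  obtain ⟨r, hr, -, h1, h2, h3⟩ := kr_many ⊥ (RingHom.ker (eval (hat ς x))) bot_le e
    fun j => hI j x hx hς
  obtain ⟨Z, hZ, rfl⟩ := exists_chI_eq ς r fun i => h2 (Sum.inr i)
  rw [← sdim_eq_trdeg hZ, (AlgEquiv.quotientBot k (MvPolynomial P.V k)).trdeg_eq,
    MvPolynomial.trdeg_of_isDomain, ← Nat.cast_card, Cardinal.lift_natCast] at h3
  have h6 : Nat.card P.V ≤ sdim Z + Nat.card (κ ⊕ P.ι) := by exact_mod_cast h3
  have hmem : ∀ {W : Sub k P}, (∃ y ∈ W, InCh ς y) →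
      chI (W : Set (P.Pt k)) ς ≤ RingHom.ker (eval (hat ς x)) → x ∈ W := fun hW h =>
    le_of_chI_le (T := {x}) hW ⟨x, Set.mem_singleton x, hς⟩
      (fun φ hφ y hy _ => by rw [Set.mem_singleton_iff.1 hy]; exact h hφ) (Set.mem_singleton x)
  obtain ⟨y, hy, hm⟩ := exists_cotangent_gen (Ideal.span (Set.range e)) (hat ς x)
    (fun φ hφ => hJm hφ) e hJe hli hc.ge
  obtain ⟨p₀, hp₀, a1, a2⟩ := Cmp_alg _ _ hJm y hy hm
    (Cmp_chain hς (hmem hZ h1) (hJ h2) (by omega))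
  obtain ⟨W, hW, rfl⟩ := exists_chI_eq ς p₀ fun i => a1 (hJe (Sum.inr i))
  have h4 : ¬ Van (W : Set (P.Pt k)) g := fun h' =>
    hgx (h' x (hmem hW (a2 _ this hJm le_rfl)))
  refine ⟨W, subset_of_van X.closed fun φ c hφ hv =>
    van_of_open hφ hg h4 fun y hy hy' => hv y (hloc y hy' fun j =>
      let ⟨a, ha⟩ := hf j; (mem_chI_form hW ha).1 (a1 (hJe (Sum.inl j))) y hy), fun U hU hxU => ?_⟩
  exact le_of_chI_le hW ⟨x, hxU, hς⟩ (a2 _ (chI_prime ⟨x, hxU, hς⟩)
    (hJ fun j => chI_anti hU ς (hI j)) fun φ hφ => hφ x hxU hς)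

theorem cmp_finite (X : Var k P) : {c | IsCmp X c}.Finite := by
  obtain ⟨s, hs, h1, h2⟩ := exists_comps X.closed
  refine hs.subset fun c hc => ?_
  obtain ⟨Z, hZ, h⟩ := h2 c hc.1
  rwa [← hc.2 Z (h1 Z hZ) h]

theorem cmp_exists {U : Sub k P} (hU : (U : Set (P.Pt k)) ⊆ X.pts) : ∃ c, IsCmp X c ∧ U ≤ c := by
  obtain ⟨x, hx⟩ := U.isIrreducible.nonempty
  obtain ⟨Z, h1, h2⟩ := Cmp_top X (hU hx)
  exact ⟨Z, ⟨h1, fun V hV h => le_antisymm (h2 V hV (h (h2 U hU hx hx))) h⟩, h2 U hU hx⟩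

theorem cmp_disj {c d : Sub k P} (hc : IsCmp X c) (hd : IsCmp X d) {x : P.Pt k} (h : x ∈ c)
    (h' : x ∈ d) : c = d := by
  obtain ⟨Z, h1, h2⟩ := Cmp_top X (hc.1 h)
  rw [← hc.2 Z h1 (h2 c hc.1 h), ← hd.2 Z h1 (h2 d hd.1 h')]

theorem cmp_smooth {c : Sub k P} (hc : IsCmp X c) : ∀ x ∈ (c : Set (P.Pt k)),
    ∃ (κ : Type) (f : κ → MvPolynomial P.V k),
      Nat.card κ + X.dim + Nat.card P.ι = Nat.card P.V ∧ LocEq (c : Set (P.Pt k)) x f := by
  intro x hx
  obtain ⟨κ, f, h1, h2, h3, h4⟩ := X.smooth x (hc.1 hx)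
  refine ⟨κ, f, h1, h2, ?_, h4⟩
  have h5 : IsClosed (⋃ d ∈ {d | IsCmp X d} \ {c}, (d : Set (P.Pt k))) :=
    ((cmp_finite X).subset Set.sdiff_subset).isClosed_biUnion fun d _ => d.isClosed
  have h6 : x ∉ ⋃ d ∈ {d | IsCmp X d} \ {c}, (d : Set (P.Pt k)) := fun h => by
    obtain ⟨d, hd, h⟩ := Set.mem_iUnion₂.1 h
    exact hd.2 (cmp_disj hd.1 hc h hx)
  filter_upwards [h3, h5.isOpen_compl.mem_nhds h6] with y a1 a2
  refine ⟨fun h => a1.1 (hc.1 h), fun h => ?_⟩
  obtain ⟨d, hd, b⟩ := cmp_exists (X := X) (U := {y}) (Set.singleton_subset_iff.2 (a1.2 h))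
  by_cases e : d = c
  · exact e ▸ b (Set.mem_singleton y)
  · exact absurd (Set.mem_iUnion₂.2 ⟨d, ⟨hd, e⟩, b (Set.mem_singleton y)⟩) a2

end Pool.Agent.Work.MP_ffcd14_ag.Chw
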