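import Pool.Agent.Work.MP_10f4af_ag.Defs
import Pool.Agent.Work.MP_ffcd14_ag.Uni.DefsU

/-! # The standard conjecture of Hodge type for cycles modulo numerical equivalence -/

open MvPolynomial

namespace Pool.Agent.Work.MP_ffcd14_ag.Chw

open MP_10f4af_ag (SV Cyc idl gys Cl CH cls mul)

universe u

variable {k : Type u} [Field k] {P : Amb}

/-- The degree of a cycle: the sum of the coefficients of its points. -/
noncomputable def dg (a : Cyc k P) : ℚ := ∑ᶠ x : P.Pt k, a (idl {x})

/-- The degree of a class. -/
noncomputable def int (X : SV k P) (x : Cl X) : ℚ := dg x.out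

/-- `x` is numerically trivial. -/
def Num (X : SV k P) (x : Cl X) : Prop := ∀ i, ∀ y ∈ CH X i, int X (mul X x y) = 0

/-- The class of the divisor of the form `f` on `X`. -/
noncomputable def sec (X : SV k P) (f : MvPolynomial P.V k) : Cl X :=
  cls X (gys (Ideal.span {f}) 1 (Finsupp.single (idl X.pts) 1))

/-- The standard conjecture of Hodge type in codimension `n`:
`(-1) ^ n ∫ x x l ^ (d - 2 n) > 0` for `x` numerically primitive and numerically non-trivial. -/
def Hodge (X : SV k P) (l : Cl X) (n : ℕ) : Prop :=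
  ∀ x ∈ CH X n, Num X ((mul X l)^[X.dim - 2 * n + 1] x) → ¬ Num X x →
    0 < (-1) ^ n * int X (mul X x ((mul X l)^[X.dim - 2 * n] x))

end Pool.Agent.Work.MP_ffcd14_ag.Chw
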