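import Pool.Agent.Work.MP_10f4af_ag.Defs
import Pool.Agent.Work.MP_ffcd14_ag.Cyc.NT
import Pool.Agent.Work.MP_10f4af_ag.T2
import Pool.Agent.Work.MP_ffcd14_ag.Chw.D0
import Pool.Agent.Work.MP_ffcd14_ag.Chw.Cmp

-- merged part: Pool.Agent.Work.MP_ffcd14_ag.Chw.NI
section
/-! # Numerical theories on irreducible varieties -/

open MvPolynomial

namespace Pool.Agent.Work.MP_ffcd14_ag.Chw

open MP_10f4af_ag (SV)

universe u

variable {k : Type u} [Field k] {P : Amb}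

/-- The span of the classes of the subvarieties of codimension `c`. -/
def cod {B : Type u} [AddCommGroup B] [Module ℚ B] (X : SV k P) (cy : Sub k P → B) (c : ℕ) :
    Submodule ℚ B := spn cy X.pts fun U => sdim U + c = X.dim

/-- A numerical theory of cycles on irreducible varieties. -/
structure NI (k : Type u) [Field k] where
  E : ∀ {P : Amb}, SV k P → Type u
  [ring : ∀ {P : Amb} (X : SV k P), CommRing (E X)]
  [alg : ∀ {P : Amb} (X : SV k P), Algebra ℚ (E X)]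
  tau : ∀ {P : Amb} (X : SV k P), E X →ₗ[ℚ] ℚ
  hy : ∀ {P : Amb} (X : SV k P), P.ι → E X
  pl : ∀ {P P' : Amb} {Ω : SV k P'} {X : SV k P}, Prj Ω.toVar X.toVar → E X →ₐ[ℚ] E Ω
  cy : ∀ {P : Amb} (X : SV k P), Sub k P → E X
  hy_mem : ∀ {P : Amb} (X : SV k P) (i : P.ι), hy X i ∈ cod X (cy X) 1
  AA_mul : ∀ {P : Amb} (X : SV k P) {c c' : ℕ} {x y : E X}, x ∈ cod X (cy X) c →
    y ∈ cod X (cy X) c' → x * y ∈ cod X (cy X) (c + c')
  AA_pl : ∀ {P P' : Amb} {Ω : SV k P'} {X : SV k P} (π : Prj Ω.toVar X.toVar) {c : ℕ} {y : E X},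
    y ∈ cod X (cy X) c → pl π y ∈ cod Ω (cy Ω) c
  tau_AA : ∀ {P : Amb} (X : SV k P) {c : ℕ} {x : E X}, x ∈ cod X (cy X) c → c ≠ X.dim →
    tau X x = 0
  pl_id : ∀ {P : Amb} {X : SV k P} (π : Prj X.toVar X.toVar), (∀ x ∈ X.pts, π.pr x = x) →
    ∀ y, pl π y = y
  pl_comp : ∀ {P P' P'' : Amb} {Ω' : SV k P''} {Ω : SV k P'} {X : SV k P}
    (ρ : Prj Ω'.toVar Ω.toVar) (π : Prj Ω.toVar X.toVar) (χ : Prj Ω'.toVar X.toVar),
    (∀ x ∈ Ω'.pts, χ.pr x = π.pr (ρ.pr x)) → ∀ z, pl χ z = pl ρ (pl π z)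
  pl_hy : ∀ {P P' : Amb} {Ω : SV k P'} {X : SV k P} (π : Prj Ω.toVar X.toVar) (i : P.ι),
    pl π (hy X i) = hy Ω (π.ψ i)
  cy_zero : ∀ {P : Amb} (X : SV k P) (Z : Sub k P), ¬ (Z : Set (P.Pt k)) ⊆ X.pts → cy X Z = 0
  cy_top : ∀ {P : Amb} (X : SV k P), cy X (X.toVar.top X.irr) = 1
  pd : ∀ {P : Amb} (X : SV k P) (x : E X), (∀ z, tau X (x * z) = 0) → x = 0
  tau_iso : ∀ {P P' : Amb} {Ω : SV k P'} {X : SV k P} (π : Prj Ω.toVar X.toVar)
    (ψ : Hom X.toVar Ω.toVar), Inv π.hom ψ → ∀ y, tau Ω (pl π y) = tau X y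
  tau_pt : ∀ {P : Amb} (X : SV k P) (Z : Sub k P), (Z : Set (P.Pt k)) ⊆ X.pts → sdim Z = 0 →
    tau X (cy X Z) = 1
  div : ∀ {P : Amb} (X : SV k P) {Z : Sub k P}, (Z : Set (P.Pt k)) ⊆ X.pts →
    ∀ (f : MvPolynomial P.V k) (a : P.ι →₀ ℕ), IsForm f a → ¬ Van (Z : Set (P.Pt k)) f →
    ∀ s : Finset (Sub k P), (∀ T, 0 < mu Z T f → T ∈ s) →
      cy X Z * lin (hy X) a = ∑ T ∈ s, (mu Z T f : ℚ) • cy X T
  push : ∀ {P P' : Amb} {Ω : SV k P'} {X : SV k P} (π : Prj Ω.toVar X.toVar) {Z : Sub k P'},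
    (Z : Set (P'.Pt k)) ⊆ Ω.pts → ∃ n : ℕ, (0 < n ↔ sdim Z = sdim (π.img Z)) ∧
      ∀ y, tau Ω (cy Ω Z * pl π y) = n * tau X (cy X (π.img Z) * y)
  meet : ∀ {P P' : Amb} {Ω : SV k P'} {X : SV k P} (π : Prj Ω.toVar X.toVar) {Z : Sub k P'},
    (Z : Set (P'.Pt k)) ⊆ Ω.pts → ∀ {T : Sub k P}, (T : Set (P.Pt k)) ⊆ X.pts →
    (∀ U ≤ Z, π.img U ≤ T → sdim U + X.dim ≤ sdim Z + sdim T) →
    cy Ω Z * pl π (cy X T) ∈
      spn (cy Ω) Ω.pts fun U => U ≤ Z ∧ π.img U ≤ T ∧ sdim U + X.dim = sdim Z + sdim T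

attribute [instance] NI.ring NI.alg

end Pool.Agent.Work.MP_ffcd14_ag.Chw
end

-- merged part: Pool.Agent.Work.MP_ffcd14_ag.Chw.C0
section
/-! # Classes in the Chow ring -/

open MvPolynomial Topology TopologicalSpace Finsupp

namespace Pool.Agent.Work.MP_10f4af_ag.Nu

open MP_ffcd14_ag hiding len vl cyc pl Weil idl_hmg mem_idl idl_prime idl_le_iff
open MP_ffcd14_ag.Chw

set_option linter.unusedSectionVars false

universe u

variable {k : Type u} [Field k] [IsAlgClosed k] {P Q S : Amb} {X : SV k P} {Y : SV k Q}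
  {Z : SV k S} {β : Crd k P S} {γ : Crd k Q S}

/-- The class of a cycle on `X`. -/
noncomputable def mkC (X : SV k P) (a : Cyc k P) (h : a ∈ ZA X.pts) : CR X :=
  CR.mk ((Rt X.pts).mkQ a) ⟨a, h, rfl⟩

theorem val_mkC (a : Cyc k P) (h : a ∈ ZA X.pts) :
    CR.val X (mkC X a h) = (Rt X.pts).mkQ a := rfl

theorem exists_mkC (x : CR X) : ∃ a h, x = mkC X a h := by
  obtain ⟨a, h, e⟩ := x.mem
  exact ⟨a, h, CR.ext e.symm⟩

open Classical in
/-- The class of a subvariety (zero if it is not contained in `X`). -/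
noncomputable def cyC (X : SV k P) (V : Sub k P) : CR X :=
  if h : (V : Set (P.Pt k)) ⊆ X.pts then mkC X (cS V) (cS_mem h) else 0

theorem val_cyC {V : Sub k P} (h : (V : Set (P.Pt k)) ⊆ X.pts) :
    CR.val X (cyC X V) = (Rt X.pts).mkQ (cS V) := by
  rw [cyC, dif_pos h, val_mkC]

theorem cyC_zero {V : Sub k P} (h : ¬ (V : Set (P.Pt k)) ⊆ X.pts) : cyC X V = 0 := by
  rw [cyC, dif_neg h]

theorem cyC_top (X : SV k P) : cyC X X.tp = 1 :=
  CR.ext (by rw [val_cyC (V := X.tp) subset_rfl]; rfl)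

theorem mem_spn {c : Sub k P → Prop} {x : CR X} :
    x ∈ spn (cyC X) X.pts c ↔ ∃ a ∈ Sp fun V : Sub k P => (V : Set (P.Pt k)) ⊆ X.pts ∧ c V,
      (Rt X.pts).mkQ a = CR.val X x := by
  constructor
  · intro hx
    induction hx using Submodule.span_induction with
    | mem x hx =>
      obtain ⟨U, hU, hc, rfl⟩ := hx
      exact ⟨cS U, cS_mem ⟨hU, hc⟩, (val_cyC hU).symm⟩
    | zero => exact ⟨0, zero_mem _, by rw [map_zero, map_zero]⟩
    | add x y _ _ hx hy =>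
      obtain ⟨a, ha, e⟩ := hx
      obtain ⟨b, hb, e'⟩ := hy
      exact ⟨a + b, add_mem ha hb, by rw [map_add, map_add, e, e']⟩
    | smul q x _ hx =>
      obtain ⟨a, ha, e⟩ := hx
      exact ⟨q • a, Submodule.smul_mem _ _ ha, by rw [map_smul, map_smul, e]⟩
  · rintro ⟨a, ha, e⟩
    obtain ⟨y, hy, e'⟩ := Sp_map (Rt X.pts).mkQ ((spn (cyC X) X.pts c).map (CR.val X))
      (fun V hV => ⟨cyC X V, Submodule.subset_span ⟨V, hV.1, hV.2, rfl⟩, val_cyC hV.1⟩) ha
    rwa [← CR.ext (e'.trans e)]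

theorem gr_eq (X : SV k P) (c : ℕ) : CR.gr X c = cod X (cyC X) c := by
  ext x
  rw [cod, mem_spn]
  exact mem_CH X

theorem spn_top (x : CR X) : x ∈ spn (cyC X) X.pts fun _ => True := by
  obtain ⟨a, h, e⟩ := x.mem
  exact mem_spn.2 ⟨a, Sp_mono (fun _ h => ⟨h, trivial⟩) h, e⟩

theorem cyC_gr {V : Sub k P} (h : (V : Set (P.Pt k)) ⊆ X.pts) {c : ℕ} (hc : sdim V + c = X.dim) :
    cyC X V ∈ CR.gr X c := by
  rw [gr_eq]
  exact Submodule.subset_span ⟨V, h, hc, rfl⟩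

/-- Two linear maps which agree on the classes of subvarieties are equal. -/
theorem cyC_ext {M : Type*} [AddCommGroup M] [Module ℚ M] (f g : CR X →ₗ[ℚ] M)
    (h : ∀ V : Sub k P, (V : Set (P.Pt k)) ⊆ X.pts → f (cyC X V) = g (cyC X V)) (x : CR X) :
    f x = g x := by
  refine LinearMap.eqOn_span (fun y hy => ?_) (spn_top x)
  obtain ⟨V, hV, -, rfl⟩ := hy
  exact h V hV

/-- Pull-back along the projection of a product. -/
noncomputable def plP (h : Pd X Y Z β γ) : CR X →ₐ[ℚ] CR Z :=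
  AlgHom.ofLinearMap
    { toFun x := CR.mk (pl X Z β.ε (CR.val _ x)) (h.pl_TC x.mem)
      map_add' x y := CR.ext (h.pl_add x.mem y.mem)
      map_smul' q x := CR.ext (h.pl_smul q x.mem) }
    (CR.ext h.pl_one) fun x y => CR.ext (h.pl_mul x.mem y.mem)

/-- Push-forward along the projection of a product. -/
noncomputable def psP (h : Pd X Y Z β γ) : CR Z →ₗ[ℚ] CR X where
  toFun x := CR.mk (ps X Z β.ε (CR.val _ x)) (h.ps_TC x.mem)
  map_add' _ _ := CR.ext (h.ps_add _ _)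
  map_smul' q _ := CR.ext (h.ps_smul q _)

theorem val_plP (h : Pd X Y Z β γ) (x : CR X) :
    CR.val Z (plP h x) = pl X Z β.ε (CR.val X x) := rfl

theorem val_psP (h : Pd X Y Z β γ) (z : CR Z) :
    CR.val X (psP h z) = ps X Z β.ε (CR.val Z z) := rfl

theorem psP_mul (h : Pd X Y Z β γ) (x : CR X) (z : CR Z) : psP h (plP h x * z) = x * psP h z :=
  CR.ext (h.ps_mul x.mem z.mem)

theorem plP_cyC (h : Pd X Y Z β γ) {V : Sub k P} (hV : (V : Set (P.Pt k)) ⊆ X.pts) :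
    plP h (cyC X V) = cyC Z (h.bij.xp V Y.tp) :=
  CR.ext (by
    rw [val_plP, val_cyC hV, val_cyC (h.xp_sub hV subset_rfl)]
    exact h.pl_cyc hV)

theorem psP_cyC (h : Pd X Y Z β γ) {W : Sub k S} (hW : (W : Set (S.Pt k)) ⊆ Z.pts) :
    psP h (cyC Z W) = (deg β.ε (idl (W : Set (S.Pt k))) : ℚ) • cyC X (β.img W) :=
  CR.ext (by
    rw [val_psP, val_cyC hW, h.ps_mk, push_cS h.bij.inj, map_smul, map_smul,
      val_cyC (h.img_sub hW)])

theorem plP_gr (h : Pd X Y Z β γ) {i : ℕ} {x : CR X} (hx : x ∈ CR.gr X i) :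
    plP h x ∈ CR.gr Z i := h.pl_CH hx

theorem psP_gr (h : Pd X Y Z β γ) {i : ℕ} {z : CR Z} (hz : z ∈ CR.gr Z (i + Y.dim)) :
    psP h z ∈ CR.gr X i := h.ps_CH hz

end Pool.Agent.Work.MP_10f4af_ag.Nu
end

-- merged part: Pool.Agent.Work.MP_ffcd14_ag.Chw.A
section
/-!
# The degree of a class

Plan.  `dgL`: the support of `x ↦ a (idl {x})` is finite (`idl_inj` for the subvarieties `{x}`,
`finite_comp`), `finsum_add_distrib`, `mul_finsum`.  `dgL_push`: `Sp_ext`, `push_cS`; for a point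
`deg_pt` gives degree one, otherwise `deg_ne_zero`.  `dgL_Rt`: `Sp_map`; for `W` in `P × ℙ¹`,
`fib_cS`; `dgL (push vl c) = dgL c = dgL (push vr c)`, `push_cut_one` (`tt k P b` is
`rename vr (X ⟨(), b⟩)`), `push_cS`; the image of `W` in `ℙ¹` is the line (`cut_line`: both
fibres are one point) or a point `y`; in the last case either the degree is zero, or `W` is a point
and both fibres vanish (`fib_mem`, `Sp_bot`).
-/

open MvPolynomial Topology TopologicalSpace Finsupp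

namespace Pool.Agent.Work.MP_10f4af_ag.Nu

open MP_ffcd14_ag hiding len vl cyc pl Weil idl_hmg mem_idl idl_prime idl_le_iff
open MP_ffcd14_ag.Chw

set_option linter.unusedSectionVars false

universe u

variable {k : Type u} [Field k] [IsAlgClosed k] {P Q S : Amb} {X : SV k P} {Y : SV k Q}
  {Z : SV k S} {β : Crd k P S} {γ : Crd k Q S}

theorem A_inj {x y : P.Pt k} (h : ({x} : Sub k P) = {y}) : x = y := by
  have hx : x ∈ ({x} : Sub k P) := rfl
  rw [h] at hx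
  exact hx

theorem A_fin (a : Cyc k P) : Function.HasFiniteSupport fun x : P.Pt k => a (idl {x}) :=
  (finite_comp a).preimage (f := fun x : P.Pt k => ({x} : Sub k P)) fun _ _ _ _ h => A_inj h

theorem dg_add (a b : Cyc k P) : dg (a + b) = dg a + dg b := by
  simp only [dg, Finsupp.add_apply]
  exact finsum_add_distrib (A_fin a) (A_fin b)

theorem dg_smul (q : ℚ) (a : Cyc k P) : dg (q • a) = q * dg a := by
  simp only [dg, Finsupp.smul_apply, smul_eq_mul]
  exact (mul_finsum _ _).symm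

/-- The degree of cycles as a linear map. -/
noncomputable def dgL : Cyc k P →ₗ[ℚ] ℚ where
  toFun := dg
  map_add' := dg_add
  map_smul' := dg_smul

theorem dgL_pt {V : Sub k P} (h : sdim V = 0) : dgL (cS V) = 1 := by
  obtain ⟨x, hx⟩ := V.isIrreducible.nonempty
  rw [eq_pt_of_sdim h hx]
  exact (finsum_eq_single _ x fun y hy => cS_ne (T := {y}) fun e => hy (A_inj e).symm).trans
    (cS_self _)

theorem dgL_pos {V : Sub k P} (h : sdim V ≠ 0) : dgL (cS V) = 0 := by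
  exact finsum_eq_zero_of_forall_eq_zero fun x => cS_ne (T := {x}) fun e => h (e ▸ sdim_pt x)

theorem dgL_push (h : Bij β γ) {c : Sub k S → Prop} {a : Cyc k S} (ha : a ∈ Sp c) :
    dgL (push β.ε a) = dgL a := by
  refine Sp_ext (dgL ∘ₗ push β.ε) dgL (fun V _ => ?_) ha
  rw [LinearMap.comp_apply, push_cS h.inj, map_smul, smul_eq_mul]
  by_cases h0 : sdim V = 0
  · obtain ⟨x, hx⟩ := V.isIrreducible.nonempty
    have h1 := β.sdim_img_le V
    rw [dgL_pt h0, dgL_pt (by omega), mul_one, deg_pt h (y := γ.pr x) fun z hz => ?_, Nat.cast_one]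
    rw [eq_pt_of_sdim h0 hx] at hz
    exact congrArg γ.pr hz
  · rw [dgL_pos h0]
    by_cases h1 : deg β.ε (idl (V : Set (S.Pt k))) = 0
    · rw [h1, Nat.cast_zero, zero_mul]
    · rw [dgL_pos ((deg_ne_zero β V).1 h1 ▸ h0), mul_zero]

theorem A_fib (b : Bool) (W : Sub k (P.sum P1)) : dgL (fib b (cS W)) =
    (deg (Crd.inr k P P1).ε (idl (W : Set ((P.sum P1).Pt k))) : ℚ) *
      dgL (cut [MvPolynomial.X ⟨(), b⟩] (cS ((Crd.inr k P P1).img W))) := by
  have h := bij_sum (k := k) (P := P) (Q := P1)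
  have hc := cut_mem (R1_fm (tt_form b)) W
  have h1 := push_cut_one h.symm.inj (IsForm.X (k := k) (P := P1) ⟨(), b⟩) W
  rw [rename_X, push_cS h.symm.inj, map_smul] at h1
  rw [fib_cS, vl_eq (k := k), dgL_push h hc, ← dgL_push h.symm hc, ← smul_eq_mul, ← map_smul, ← h1]
  rfl

theorem dgL_Rt {A : Set (P.Pt k)} {a : Cyc k P} (ha : a ∈ Rt A) : dgL a = 0 := by
  obtain ⟨w, hw, rfl⟩ := ha
  rw [LinearMap.sub_apply, map_sub, sub_eq_zero]
  refine Sp_ext (dgL ∘ₗ fib true) (dgL ∘ₗ fib false) (fun W _ => ?_) hw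
  rw [LinearMap.comp_apply, LinearMap.comp_apply, A_fib, A_fib]
  generalize (Crd.inr k P P1).img W = V
  obtain ⟨L, hL, hd⟩ := exists_line (k := k)
  by_cases h0 : sdim V = 0
  · have h : ∀ b, cut [MvPolynomial.X ⟨(), b⟩] (cS V) = 0 := fun b => Sp_bot (Sp_mono
      (fun T hT => by
        have := hT.2.1
        rw [List.length_singleton] at this
        omega) (cut_mem (R1_fm (IsForm.X (k := k) (P := P1) ⟨(), b⟩)) V))
    rw [h true, h false]
  · have e : V = L := eq_of_sdim_le (fun z _ => hL z) (by omega)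
    obtain ⟨y, -, hy⟩ := cut_line hL true
    obtain ⟨y', -, hy'⟩ := cut_line hL false
    rw [e, hy, hy', dgL_pt (sdim_pt y), dgL_pt (sdim_pt y')]

/-- The degree on the Chow ring. -/
noncomputable def tauC (X : SV k P) : CR X →ₗ[ℚ] ℚ :=
  (Rt X.pts).liftQ dgL (fun _ ha => dgL_Rt ha) ∘ₗ CR.val X

theorem tauC_of {x : CR X} {a : Cyc k P} (h : (Rt X.pts).mkQ a = CR.val X x) :
    tauC X x = dgL a := by
  rw [tauC, LinearMap.comp_apply, ← h]
  rfl

theorem tauC_val (x : CR X) : tauC X x = int X (CR.val X x) := by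
  exact tauC_of (Submodule.Quotient.mk_out _)

theorem tauC_pt {V : Sub k P} (hV : (V : Set (P.Pt k)) ⊆ X.pts) (h : sdim V = 0) :
    tauC X (cyC X V) = 1 := by
  rw [tauC_of (val_cyC hV).symm, dgL_pt h]

theorem tauC_gr {c : ℕ} {x : CR X} (hx : x ∈ CR.gr X c) (hc : c ≠ X.dim) : tauC X x = 0 := by
  obtain ⟨a, ha, e⟩ := (mem_CH X).1 hx
  rw [tauC_of e]
  exact Sp_ext dgL 0 (fun V hV => dgL_pos (by have := hV.2; omega)) ha

theorem tauC_psP (h : Pd X Y Z β γ) (z : CR Z) : tauC X (psP h z) = tauC Z z := by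
  obtain ⟨a, ha, e⟩ := z.mem
  rw [tauC_of e, tauC_of (a := push β.ε a) (by rw [val_psP, ← e, h.ps_mk]), dgL_push h.bij ha]

end Pool.Agent.Work.MP_10f4af_ag.Nu
end

-- merged part: Pool.Agent.Work.MP_ffcd14_ag.Chw.B
section
/-!
# Pull-back along a coordinate map

`π : Ω → X` has the graph `Γ = (gj π).img Ω.tp` in `Ω × X`, and `π^* y = p₁_* (p₂^* y · Γ)`.
Plan.  `gam_mul`: `plP_cyC`, `mul_mk` with `Pd.pp_sec`, `Pd.ip_sec`.  `gam_key`: move a
representative of `α` (`moving` with the family `{Γ}`), `mul_mk`, `ip_mem'`: `α · Γ` lies in the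
span of the `cyC U`, `U ≤ Γ`; such a `U` is `(gj π).img V` with `V = inl.img U` (`img_img`,
`Crd.img_congr`), `psP (cyC U) = cyC V` (`psP_cyC`, `deg_sec`), then `gam_mul`.
`deg_gj`: `deg_comp` for `inr.comp (gj π)`, `deg_sec`, `deg_congr`.
`meetC`: `cyC Z * π^* T = p₁_* (cyC (gj Z) · cyC (Ω × T))`, the intersection is proper
(`sdim_xp`, `I2_sec`), `mul_mk`, `ip_mem`, `push_mem`.
-/

open MvPolynomial Topology TopologicalSpace Finsupp

namespace Pool.Agent.Work.MP_10f4af_ag.Nu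

open MP_ffcd14_ag hiding len vl cyc pl Weil idl_hmg mem_idl idl_prime idl_le_iff
open MP_ffcd14_ag.Chw

set_option linter.unusedSectionVars false

universe u

variable {k : Type u} [Field k] [IsAlgClosed k] {P P' P'' : Amb} {X : SV k P} {Ω : SV k P'}
  {Ω' : SV k P''} (π : Prj Ω.toVar X.toVar)

/-- The section of `Ω × X → Ω` defined by `π`. -/
def gj : Crd k (P'.sum P) P' := (Crd.refl k P').pair π.toCrd

theorem B_e : (gj π).ε ∘ (Crd.inl k P' P).ε = id := rfl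

theorem B_e' : (gj π).ε ∘ (Crd.inr k P' P).ε = π.toCrd.ε := rfl

theorem B_hj : ∀ x ∈ Ω.pts, (gj π).pr x ∈ (Ω.prod X).pts :=
  fun x hx => mem_prod.2 ⟨hx, π.maps x hx⟩

theorem B_back {V : Sub k P'} {U : Sub k (P'.sum P)} (h : U ≤ (gj π).img V) :
    (gj π).img ((Crd.inl k P' P).img U) = U := by
  rw [← Crd.img_comp, Crd.img_congr _ (Crd.refl k _) fun x hx => I2_fix (gj π) (B_e π) V x (h hx),
    Crd.img_refl]

theorem B_mul_mem {V W : Sub k P} (hV : (V : Set (P.Pt k)) ⊆ X.pts)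
    (hW : (W : Set (P.Pt k)) ⊆ X.pts) (hp : Pp X.dim V W) : cyC X V * cyC X W ∈
      spn (cyC X) X.pts fun U => U ≤ V ∧ U ≤ W ∧ sdim U + X.dim = sdim V + sdim W :=
  mem_spn.2 ⟨ip X.dim (cS V) (cS W),
    Sp_mono (fun U h => ⟨fun _ hx => hV (h.1 hx), h⟩) (ip_mem X hV hW), by
      rw [CR.val_mul, val_cyC hV, val_cyC hW, mul_mk X (cS_mem hV) (cS_mem hW) (F1_cS hp)]⟩

theorem gj_sub {V : Sub k P'} (hV : (V : Set (P'.Pt k)) ⊆ Ω.pts) :
    ((gj π).img V : Set ((P'.sum P).Pt k)) ⊆ (Ω.prod X).pts := by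
  exact ((gj π).img_sub (Ω.prod X).closed).2 fun x hx => B_hj π x (hV hx)

theorem sdim_gj (V : Sub k P') : sdim ((gj π).img V) = sdim V := by
  exact I2_sec (gj π) (Crd.inl k P' P) fun _ _ => rfl

/-- The class of the graph. -/
noncomputable def gam : CR (Ω.prod X) := cyC (Ω.prod X) ((gj π).img Ω.tp)

theorem gam_gr : gam π ∈ CR.gr (Ω.prod X) X.dim := by
  exact cyC_gr (gj_sub π subset_rfl) (by rw [sdim_gj, Ω.sdim_tp, prod_dim])

theorem B_ps {V : Sub k P'} (hV : (V : Set (P'.Pt k)) ⊆ Ω.pts) :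
    psP (pd_prod Ω X) (cyC (Ω.prod X) ((gj π).img V)) = cyC Ω V := by
  rw [psP_cyC _ (gj_sub π hV), deg_sec _ (gj π) (I2_fix (gj π) (B_e π) V), I2_img (gj π) (B_e π),
    Nat.cast_one, one_smul]

theorem ps_gam : psP (pd_prod Ω X) (gam π) = 1 := by
  rw [gam, B_ps π (V := Ω.tp) subset_rfl, cyC_top]

theorem gam_mul {V : Sub k P'} (hV : (V : Set (P'.Pt k)) ⊆ Ω.pts) :
    plP (pd_prod Ω X) (cyC Ω V) * gam π = cyC (Ω.prod X) ((gj π).img V) := by
  have h1 := (pd_prod Ω X).xp_sub hV (W := X.tp) subset_rfl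
  have h2 := gj_sub π (V := Ω.tp) subset_rfl
  refine CR.ext ?_
  rw [plP_cyC _ hV, CR.val_mul, gam, val_cyC h1, val_cyC h2, val_cyC (gj_sub π hV),
    mul_mk _ (cS_mem h1) (cS_mem h2) (F1_cS ((pd_prod Ω X).pp_sec (gj π) (B_e π) V)),
    (pd_prod Ω X).ip_sec (gj π) (B_e π) (B_hj π) hV]

theorem gam_key (α : CR (Ω.prod X)) :
    α * gam π = plP (pd_prod Ω X) (psP (pd_prod Ω X) (α * gam π)) * gam π := by
  have h2 := gj_sub π (V := Ω.tp) subset_rfl
  obtain ⟨a, ha, e, hp⟩ := F1_rep' _ α.mem (cS ((gj π).img Ω.tp))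
  have hm : α * gam π ∈ spn (cyC (Ω.prod X)) (Ω.prod X).pts fun U => U ≤ (gj π).img Ω.tp := by
    refine mem_spn.2 ⟨_, Sp_mono ?_ (ip_mem' (Ω.prod X) ha (cS_mem h2) ha
      (cS_mem (c := fun W => W = (gj π).img Ω.tp) rfl)), ?_⟩
    · rintro U ⟨V, W, -, rfl, -, h3, h4, -⟩
      exact ⟨h4, h3⟩
    · rw [CR.val_mul, ← e, gam, val_cyC h2, mul_mk _ ha (cS_mem h2) hp]
  refine LinearMap.eqOn_span (f := LinearMap.id) (g := LinearMap.mulRight ℚ (gam π) ∘ₗ
    (plP (pd_prod Ω X)).toLinearMap ∘ₗ psP (pd_prod Ω X)) ?_ hm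
  rintro _ ⟨U, hU, h3, rfl⟩
  have h4 := (pd_prod Ω X).img_sub hU
  simp only [LinearMap.id_apply, LinearMap.comp_apply, LinearMap.mulRight_apply,
    AlgHom.toLinearMap_apply]
  rw [← B_back π h3, B_ps π h4, gam_mul π h4]

/-- Pull-back along `π`. -/
noncomputable def plC : CR X →ₐ[ℚ] CR Ω :=
  AlgHom.ofLinearMap
    (psP (pd_prod Ω X) ∘ₗ LinearMap.mulRight ℚ (gam π) ∘ₗ (plP (pd_prod Ω X).symm).toLinearMap)
    (by simpa using ps_gam π) fun x y => by
      simp only [LinearMap.comp_apply, LinearMap.mulRight_apply, AlgHom.toLinearMap_apply]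
      rw [← psP_mul, map_mul (plP _), mul_right_comm, ← mul_assoc, mul_right_comm _ _ (gam π),
        ← gam_key]

theorem plC_apply (y : CR X) :
    plC π y = psP (pd_prod Ω X) (plP (pd_prod Ω X).symm y * gam π) := rfl

/-- Push-forward along `π`. -/
noncomputable def psC : CR Ω →ₗ[ℚ] CR X :=
  psP (pd_prod Ω X).symm ∘ₗ LinearMap.mulRight ℚ (gam π) ∘ₗ (plP (pd_prod Ω X)).toLinearMap

theorem psC_apply (a : CR Ω) :
    psC π a = psP (pd_prod Ω X).symm (plP (pd_prod Ω X) a * gam π) := rfl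

theorem plC_gr {c : ℕ} {y : CR X} (hy : y ∈ CR.gr X c) : plC π y ∈ CR.gr Ω c := by
  exact psP_gr (pd_prod Ω X) (CR.mul_gr (plP_gr (pd_prod Ω X).symm hy) (gam_gr π))

theorem adj (a : CR Ω) (y : CR X) : tauC Ω (a * plC π y) = tauC X (psC π a * y) := by
  rw [plC_apply, psC_apply, ← psP_mul, tauC_psP, mul_comm _ y, ← psP_mul, tauC_psP,
    mul_left_comm]

theorem deg_gj (V : Sub k P') :
    deg (Crd.inr k P' P).ε (idl ((gj π).img V : Set ((P'.sum P).Pt k))) =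
      deg π.ε (idl (V : Set (P'.Pt k))) := by
  have h := deg_comp (Crd.inr k P' P) (gj π) V
  rw [deg_sec (gj π) (Crd.inl k P' P) fun _ _ => rfl, mul_one] at h
  exact h.symm

theorem psC_cyC {V : Sub k P'} (hV : (V : Set (P'.Pt k)) ⊆ Ω.pts) :
    psC π (cyC Ω V) = (deg π.ε (idl (V : Set (P'.Pt k))) : ℚ) • cyC X (π.img V) := by
  rw [psC_apply, gam_mul π hV, psP_cyC _ (gj_sub π hV), deg_gj, img_img (B_e' π)]

theorem pushC {V : Sub k P'} (hV : (V : Set (P'.Pt k)) ⊆ Ω.pts) (y : CR X) :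
    tauC Ω (cyC Ω V * plC π y) =
      deg π.ε (idl (V : Set (P'.Pt k))) * tauC X (cyC X (π.img V) * y) := by
  rw [adj, psC_cyC π hV, smul_mul_assoc, map_smul, smul_eq_mul]

theorem meetC {V : Sub k P'} (hV : (V : Set (P'.Pt k)) ⊆ Ω.pts) {T : Sub k P}
    (hT : (T : Set (P.Pt k)) ⊆ X.pts)
    (hp : ∀ U ≤ V, π.img U ≤ T → sdim U + X.dim ≤ sdim V + sdim T) :
    cyC Ω V * plC π (cyC X T) ∈
      spn (cyC Ω) Ω.pts fun U => U ≤ V ∧ π.img U ≤ T ∧ sdim U + X.dim = sdim V + sdim T := by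
  have key : ∀ U ≤ (gj π).img V, U ≤ (pd_prod Ω X).symm.bij.xp T Ω.tp →
      (Crd.inl k P' P).img U ≤ V ∧ π.img ((Crd.inl k P' P).img U) ≤ T ∧
        sdim ((Crd.inl k P' P).img U) = sdim U := by
    intro U h1 h2
    refine ⟨?_, ?_, ?_⟩
    · have := (Crd.inl k P' P).img_mono h1
      rwa [I2_img (gj π) (B_e π)] at this
    · rw [← img_img (B_e' π), B_back π h1]
      exact ((pd_prod Ω X).symm.bij.le_xp.1 h2).1
    · rw [← sdim_gj π, B_back π h1]
  have hm := B_mul_mem (gj_sub π hV) ((pd_prod Ω X).symm.xp_sub hT (W := Ω.tp) subset_rfl)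
    fun U h1 h2 => by
      obtain ⟨a1, a2, a3⟩ := key U h1 h2
      have := hp _ a1 a2
      rw [prod_dim, sdim_gj, Bij.sdim_xp, Ω.sdim_tp]
      omega
  rw [plC_apply, ← psP_mul, mul_left_comm, gam_mul π hV, plP_cyC _ hT, mul_comm]
  rw [← Submodule.mem_comap]
  refine (Submodule.span_le.2 ?_ : _ ≤ Submodule.comap (psP (pd_prod Ω X)) _) hm
  rintro _ ⟨U, hU, ⟨h1, h2, h3⟩, rfl⟩
  obtain ⟨a1, a2, a3⟩ := key U h1 h2
  have h4 := (pd_prod Ω X).img_sub hU
  rw [prod_dim, sdim_gj, Bij.sdim_xp, Ω.sdim_tp] at h3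
  rw [SetLike.mem_coe, Submodule.mem_comap, ← B_back π h1, B_ps π h4]
  exact Submodule.subset_span ⟨_, h4, ⟨a1, a2, by omega⟩, rfl⟩

/-- Numerically, the identity acts as the identity. -/
theorem plC_id (π : Prj X.toVar X.toVar) (h : ∀ x ∈ X.pts, π.pr x = x) (a y : CR X) :
    tauC X (a * plC π y) = tauC X (a * y) := by
  refine cyC_ext (tauC X ∘ₗ LinearMap.mulRight ℚ (plC π y)) (tauC X ∘ₗ LinearMap.mulRight ℚ y)
    (fun V hV => ?_) a
  have h1 : ∀ x ∈ V, π.toCrd.pr x = (Crd.refl k P).pr x := fun x hx => h x (hV hx)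
  simp only [LinearMap.comp_apply, LinearMap.mulRight_apply]
  rw [pushC π hV, deg_congr _ _ h1, Crd.img_congr _ _ h1, Crd.img_refl,
    deg_sec (Crd.refl k P) (Crd.refl k P) fun _ _ => rfl, Nat.cast_one, one_mul]

/-- Numerically, pull-back is compatible with composition. -/
theorem plC_comp (ρ : Prj Ω'.toVar Ω.toVar) (χ : Prj Ω'.toVar X.toVar)
    (h : ∀ x ∈ Ω'.pts, χ.pr x = π.pr (ρ.pr x)) (a : CR Ω') (y : CR X) :
    tauC Ω' (a * plC χ y) = tauC Ω' (a * plC ρ (plC π y)) := by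
  refine cyC_ext (tauC Ω' ∘ₗ LinearMap.mulRight ℚ (plC χ y))
    (tauC Ω' ∘ₗ LinearMap.mulRight ℚ (plC ρ (plC π y))) (fun V hV => ?_) a
  have h1 : ∀ x ∈ V, χ.toCrd.pr x = (π.toCrd.comp ρ.toCrd).pr x := fun x hx => h x (hV hx)
  have h2 : (ρ.img V : Set (P'.Pt k)) ⊆ Ω.pts :=
    (ρ.toCrd.img_sub Ω.closed).2 fun x hx => ρ.maps x (hV hx)
  simp only [LinearMap.comp_apply, LinearMap.mulRight_apply]
  rw [pushC χ hV, pushC ρ hV, pushC π h2, deg_congr _ _ h1, Crd.img_congr _ _ h1, Crd.img_comp,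
    deg_comp, Nat.cast_mul]
  ring

end Pool.Agent.Work.MP_10f4af_ag.Nu
end

-- merged part: Pool.Agent.Work.MP_ffcd14_ag.Chw.H
section
/-!
# Hyperplane classes and divisors

Plan.  `secC_mul`, `secC_eq`: `cut_mul`, `pencil`.  `secC_lin`: compare `f` with a product of the
coordinates `X ⟨i, crd X i⟩` (induction on `a`; for `a = 0` the form `1` has no zero: `cut_unit`).
`cyC_secC`: `gys_single`, `mul_mk` (`prp_iff`; the components of the divisor meet `V` properly by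
`cut_mem`, `sdim_lt`), `ip_gys` with `W = X.tp` (`LG.single`, `Pp_top`), `ip_top`.  If `f` does not
vanish on `V` it does not vanish on `X`.  `cut_eq_sum`: `Sp_eq`, `cut_cS`, `mult_eq`,
`dv_of_notMem`, `cyI_of_mem`, `cyI_of_notMem`, `min_form`, `len_zero`; `len_def` and `idl_eq` are
`rfl`, the function `MP_ffcd14_ag.len` in `mu` is `lnM`.  `plP_hyC`: `Pd.pl_mk`, `cut_ex`, `Pd.tp`.
-/

open MvPolynomial Topology TopologicalSpace Finsupp

namespace Pool.Agent.Work.MP_10f4af_ag.Nu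

open MP_ffcd14_ag hiding len vl cyc pl Weil idl_hmg mem_idl idl_prime idl_le_iff
open MP_ffcd14_ag.Chw

set_option linter.unusedSectionVars false

universe u

variable {k : Type u} [Field k] [IsAlgClosed k] {P Q S : Amb} {X : SV k P} {Y : SV k Q}
  {Z : SV k S} {β : Crd k P S} {γ : Crd k Q S} {f g : MvPolynomial P.V k} {a b : P.ι →₀ ℕ}

theorem cut_ZA (hf : IsForm f a) {A : Set (P.Pt k)} {V : Sub k P} (hV : (V : Set (P.Pt k)) ⊆ A) :
    cut [f] (cS V) ∈ ZA A := by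
  exact Sp_mono (fun T h => Set.Subset.trans h.1 hV) (cut_mem (R1_fm hf) V)

/-- The class of the divisor of a form. -/
noncomputable def secC (X : SV k P) (hf : IsForm f a) : CR X :=
  mkC X (cut [f] (cS X.tp)) (cut_ZA hf subset_rfl)

theorem val_secC (hf : IsForm f a) : CR.val X (secC X hf) = sec X f := by
  rw [secC, val_mkC, ← gys_single hf]
  rfl

theorem secC_gr (hf : IsForm f a) : secC X hf ∈ CR.gr X 1 := by
  refine (mem_CH X).2 ⟨_, Sp_mono (fun T h => ⟨h.1, ?_⟩) (cut_mem (R1_fm hf) X.tp), rfl⟩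
  rw [← X.sdim_tp]
  exact h.2.1

/-- A coordinate which does not vanish on `X`. -/
noncomputable def crd (X : SV k P) (i : P.ι) : P.σ i := (rel_idl X.tp i).choose

/-- The hyperplane classes. -/
noncomputable def hyC (X : SV k P) (i : P.ι) : CR X := secC X (IsForm.X (⟨i, crd X i⟩ : P.V))

theorem hyC_gr (X : SV k P) (i : P.ι) : hyC X i ∈ CR.gr X 1 := secC_gr _

theorem H_single {ι : Type} {B : Type*} [Ring B] (h : ι → B) (i : ι) :
    lin h (single i 1) = h i :=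
  (sum_single_index (h := fun i (n : ℕ) => n • h i) (zero_smul _ _)).trans (one_smul _ _)

theorem H_add {ι : Type} {B : Type*} [Ring B] (h : ι → B) (a b : ι →₀ ℕ) :
    lin h (a + b) = lin h a + lin h b :=
  sum_add_index' (h := fun i (n : ℕ) => n • h i) (fun _ => zero_smul _ _) fun _ _ _ =>
    add_smul _ _ _

theorem H_crd (X : SV k P) (i : P.ι) : ¬ Van X.pts (MvPolynomial.X ⟨i, crd X i⟩) :=
  mt (mem_idl (IsForm.X _)).2 (rel_idl X.tp i).choose_spec

theorem H_form (β : Crd k P S) (i : P.ι) (s : P.σ i) :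
    IsForm (MvPolynomial.X (β.ε ⟨i, s⟩) : MvPolynomial S.V k) (single (β.ψ i) 1) :=
  β.fst ⟨i, s⟩ ▸ IsForm.X _

theorem H_exists (β : Crd k P S) (W : Sub k S) (i : P.ι) :
    ∃ s, ¬ Van (W : Set (S.Pt k)) (MvPolynomial.X (β.ε ⟨i, s⟩)) := by
  obtain ⟨z, hz⟩ := W.isIrreducible.nonempty
  obtain ⟨s, hs⟩ := Function.ne_iff.1 (β.pr z i).rep_nonzero
  exact ⟨s, fun e => hs ((G2_evX β z ⟨i, s⟩).symm.trans (e z hz))⟩

theorem H_zero (hf : IsForm f a) {V T : Sub k P} (h : ¬ Van (T : Set (P.Pt k)) f) :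
    cut [f] (cS V) (idl (T : Set (P.Pt k))) = 0 :=
  by_contra fun e => h ((Sp_of (cut_mem (R1_fm hf) V) e).2.2 f List.mem_cons_self)

theorem H_model (X : SV k P) (a : P.ι →₀ ℕ) : ∃ (g : MvPolynomial P.V k) (hg : IsForm g a),
    ¬ Van X.pts g ∧ secC X hg = lin (hyC X) a := by
  have h0 : ∃ (g : MvPolynomial P.V k) (hg : IsForm g 0),
      ¬ Van X.pts g ∧ secC X hg = lin (hyC X) 0 := by
    have h : ∀ x : P.Pt k, ev x 1 ≠ 0 := fun x => by
      rw [ev_eq, map_one]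
      exact one_ne_zero
    obtain ⟨x, hx⟩ := X.irr.nonempty
    refine ⟨1, IsForm.one, fun e => h x (e x hx), CR.ext ?_⟩
    rw [secC, val_mkC, cut_unit IsForm.one fun x _ => h x, lin, sum_zero_index, map_zero, map_zero]
  have h1 : ∀ a b : P.ι →₀ ℕ, (∃ (g : MvPolynomial P.V k) (hg : IsForm g a),
      ¬ Van X.pts g ∧ secC X hg = lin (hyC X) a) → (∃ (g : MvPolynomial P.V k) (hg : IsForm g b),
      ¬ Van X.pts g ∧ secC X hg = lin (hyC X) b) → ∃ (g : MvPolynomial P.V k)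
      (hg : IsForm g (a + b)), ¬ Van X.pts g ∧ secC X hg = lin (hyC X) (a + b) := by
    rintro a b ⟨f, hf, f1, f2⟩ ⟨g, hg, g1, g2⟩
    refine ⟨f * g, hf.mul hg, fun e => (Van.mul (Z := X.tp) hf hg e).elim f1 g1, ?_⟩
    rw [H_add, ← f2, ← g2]
    refine CR.ext ?_
    rw [map_add, secC, secC, secC, val_mkC, val_mkC, val_mkC, cut_mul (V := X.tp) f1 g1, map_add]
  induction a using Finsupp.induction_linear with
  | zero => exact h0
  | add a b ha hb => exact h1 a b ha hb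
  | single i n =>
    induction n with
    | zero => rwa [single_zero]
    | succ n ih =>
      rw [single_add]
      exact h1 _ _ ih ⟨_, IsForm.X ⟨i, crd X i⟩, H_crd X i, (H_single (hyC X) i).symm⟩

theorem secC_lin (hf : IsForm f a) (h : ¬ Van X.pts f) : secC X hf = lin (hyC X) a := by
  obtain ⟨g, hg, h1, h2⟩ := H_model X a
  rw [← h2]
  exact CR.ext ((Submodule.Quotient.eq _).2 (pencil (V := X.tp) subset_rfl hf hg h h1))

theorem val_div (hf : IsForm f a) {V : Sub k P} (hV : (V : Set (P.Pt k)) ⊆ X.pts)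
    (h : ¬ Van (V : Set (P.Pt k)) f) :
    CR.val X (cyC X V * lin (hyC X) a) = (Rt X.pts).mkQ (cut [f] (cS V)) := by
  have h' : ¬ Van X.pts f := fun e => h fun x hx => e x (hV hx)
  have hd := X.sdim_tp
  have hp := R1_PV hf h
  rw [← secC_lin hf h', CR.val_mul, val_cyC hV, secC, val_mkC,
    mul_mk X (cS_mem hV) (cut_ZA hf subset_rfl), ← gys_single hf X.tp,
    ip_gys X hV subset_rfl (Pp_top X V) (LG.single hf) (R1_PV hf h') fun T h1 _ h2 => by
      have := hp T h1 h2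
      omega, ip_top X hV, gys_single hf]
  refine prp_iff.2 fun V' W h1 h2 U h3 h4 => ?_
  obtain rfl : V = V' := by_contra fun e => h1 (cS_ne e)
  obtain ⟨-, h5, h6⟩ := Sp_of (cut_mem (R1_fm hf) X.tp) h2
  have h7 := hp U h3 ((R1_span hf).2 (Gc_van h4 (h6 f List.mem_cons_self)))
  rw [List.length_singleton] at h5
  omega

theorem H_coeff (hf : IsForm f a) {V : Sub k P} (h : ¬ Van (V : Set (P.Pt k)) f) (T : Sub k P) :
    cut [f] (cS V) (idl (T : Set (P.Pt k))) = mu V T f := by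
  by_cases e : T ≤ V ∧ Van (T : Set (P.Pt k)) f ∧ sdim T + 1 = sdim V
  · rw [(G3_cut hf h e.1 e.2.1 e.2.2).1, mu, if_pos e.2.2]
    rfl
  · have h1 : cut [f] (cS V) (idl (T : Set (P.Pt k))) = 0 := by_contra fun h1 =>
      have h2 := Sp_of (cut_mem (R1_fm hf) V) h1
      e ⟨h2.1, h2.2.2 f List.mem_cons_self, h2.2.1⟩
    rw [h1, mu]
    split_ifs with h2
    · have h3 : len (idl (T : Set (P.Pt k))) (idl (V : Set (P.Pt k)) ⊔ Ideal.span {f}) = 0 :=
        len_zero fun h3 => e ⟨idl_le_iff.1 (le_sup_left.trans h3),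
          (R1_span hf).1 (le_sup_right.trans h3), h2⟩
      exact (Nat.cast_eq_zero.2 h3).symm
    · exact Nat.cast_zero.symm

theorem cut_eq_sum (hf : IsForm f a) {V : Sub k P} (h : ¬ Van (V : Set (P.Pt k)) f)
    (s : Finset (Sub k P)) (hs : ∀ T, 0 < mu V T f → T ∈ s) :
    cut [f] (cS V) = ∑ T ∈ s, (mu V T f : ℚ) • cS T := by
  classical
  refine Sp_eq (c' := fun _ => True) (cut_mem (R1_fm hf) V)
    (Submodule.sum_mem _ fun T _ => Submodule.smul_mem _ _ (cS_mem trivial)) fun T _ => ?_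
  rw [H_coeff hf h, finsetSum_apply, Finset.sum_eq_single T]
  · rw [Finsupp.smul_apply, cS_self, smul_eq_mul, mul_one]
  · intro U _ hU
    rw [Finsupp.smul_apply, cS_ne hU, smul_zero]
  · intro hT
    rw [Nat.eq_zero_of_not_pos (mt (hs T) hT), Nat.cast_zero, zero_smul,
      Finsupp.zero_apply]

theorem divC {V : Sub k P} (hV : (V : Set (P.Pt k)) ⊆ X.pts) (hf : IsForm f a)
    (h : ¬ Van (V : Set (P.Pt k)) f) (s : Finset (Sub k P)) (hs : ∀ T, 0 < mu V T f → T ∈ s) :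
    cyC X V * lin (hyC X) a = ∑ T ∈ s, (mu V T f : ℚ) • cyC X T := by
  refine CR.ext ?_
  rw [val_div hf hV h, cut_eq_sum hf h s hs, map_sum, map_sum]
  refine Finset.sum_congr rfl fun T _ => ?_
  rw [map_smul, map_smul]
  by_cases e : (mu V T f : ℚ) = 0
  · rw [e, zero_smul, zero_smul]
  · rw [← H_coeff hf h] at e
    rw [val_cyC (Set.Subset.trans (Sp_of (cut_mem (R1_fm hf) V) e).1 hV)]

theorem plP_hyC (h : Pd X Y Z β γ) (i : P.ι) : plP h (hyC X i) = hyC Z (β.ψ i) := by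
  have h1 : ¬ Van Z.pts (MvPolynomial.X (β.ε ⟨i, crd X i⟩)) := fun e => H_crd X i fun x hx => by
    obtain ⟨y, hy⟩ := Y.irr.nonempty
    obtain ⟨z, rfl, rfl⟩ := h.bij.exists_pt x y
    exact (ev_X _ _).trans ((G2_evX β z _).symm.trans (e z ((h.mem z).2 ⟨hx, hy⟩)))
  have h2 := cut_ex h.bij (R1_fm (IsForm.X (⟨i, crd X i⟩ : P.V))) X.tp Y.tp
  rw [List.map_singleton, rename_X, h.bij.ex_cS, ← h.tp] at h2
  rw [← H_single (hyC Z), ← secC_lin (H_form β i _) h1]
  refine CR.ext ?_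
  rw [val_plP, hyC, secC, val_mkC, h.pl_mk (cut_ZA (IsForm.X _) subset_rfl), ← h2]
  rfl

/-- On a subvariety on which `β` and `β'` agree the two hyperplane classes agree.  Plan: by
`val_div` it is enough to see `cut [X (β.ε s)] W = cut [X (β'.ε s)] W` for a coordinate `s` of the
factor `i` which does not vanish on `W`; both polynomials take the same values on `W`
(`Crd.rp_pr`), for `β.ψ i ≠ β'.ψ i` they have different degrees.  Compare coefficients at `T ≤ W`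
(`Sp_eq`, `cut_mem`): choose `t` with `X (β.ε t)` not vanishing on `T`; the form
`X (β.ε s) X (β'.ε t) - X (β.ε t) X (β'.ε s)` vanishes on `W`; `cut_congr`, `cut_mul`. -/
theorem cyC_hyC (β β' : Crd k P S) {W : Sub k S} (hW : (W : Set (S.Pt k)) ⊆ Z.pts)
    (h : ∀ z ∈ W, β.pr z = β'.pr z) (i : P.ι) :
    cyC Z W * hyC Z (β.ψ i) = cyC Z W * hyC Z (β'.ψ i) := by
  have e : ∀ T ≤ W, ∀ s, Van (T : Set (S.Pt k)) (MvPolynomial.X (β.ε s)) ↔
      Van (T : Set (S.Pt k)) (MvPolynomial.X (β'.ε s)) := fun T hT s =>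
    forall₂_congr fun z hz => by rw [G2_evX, G2_evX, h z (hT hz)]
  obtain ⟨s, hs⟩ := H_exists β W i
  have hs' := mt (e W le_rfl _).2 hs
  refine CR.ext ?_
  rw [← H_single (hyC Z), ← H_single (hyC Z), val_div (H_form β i s) hW hs,
    val_div (H_form β' i s) hW hs']
  refine congrArg _ (Sp_eq (cut_mem (R1_fm (H_form β i s)) W) (cut_mem (R1_fm (H_form β' i s)) W)
    fun T hT => ?_)
  have h1 : T ≤ W := hT.elim And.left And.left
  obtain ⟨t, ht⟩ := H_exists β T i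
  have ht' := mt (e T h1 _).2 ht
  have h2 := cut_congr ((dI_le_iff β β').2 h (Ideal.subset_span ⟨i, s, t, rfl⟩))
  rw [cut_mul hs (mt (Gc_van h1) ht'), cut_mul (mt (Gc_van h1) ht) hs'] at h2
  have h3 := DFunLike.congr_fun h2 (idl (T : Set (S.Pt k)))
  rwa [Finsupp.add_apply, Finsupp.add_apply, H_zero (H_form β i t) ht, H_zero (H_form β' i t) ht',
    add_zero, zero_add] at h3

end Pool.Agent.Work.MP_10f4af_ag.Nu
end

-- merged part: Pool.Agent.Work.MP_ffcd14_ag.Chw.Iso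
section
/-!
# An isomorphism has degree one

Plan.  Take a generic point `v` of `Ω` (`exists_gen'`), `deg_eq`; show `fld k v ≤ fld k (v ∘ π.ε)`
(`IntermediateField.relfinrank_eq_one_of_le`, `fld_le`).  For the factor `j` take the forms `F` of
`ψ.reg x j` at a point `x`.  On a non-empty open subset of `Ω` the point `z j` is
`[F (π z)]`, hence the minors `X ⟨j, s⟩ * rename π.ε (F t) - X ⟨j, t⟩ * rename π.ε (F s)` vanish
on `Ω` (irreducible; `van_of_open`, `van_closure`, a basis of the Zariski topology) and some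
`rename π.ε (F s)` does not.  A quotient of two forms of the same degree at `u = v ∘ π.ε` lies in
`fld k u` (scale `u` to a chart, or see `Nrm.mem_fld`, `OnGraph.isGen` in `Cyc/GC.lean`).
-/

open MvPolynomial Topology TopologicalSpace Finsupp

namespace Pool.Agent.Work.MP_10f4af_ag.Nu

open MP_ffcd14_ag hiding len vl cyc pl Weil idl_hmg mem_idl idl_prime idl_le_iff
open MP_ffcd14_ag.Chw

set_option linter.unusedSectionVars false

universe u

variable {k : Type u} [Field k] [IsAlgClosed k] {P P' : Amb} {X : SV k P} {Ω : SV k P'}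

theorem Iso_aeval {L : Type u} [Field L] [Algebra k L] (K : IntermediateField k L) {u : P.V → L}
    (h : ∀ s, u s ∈ K) (f : MvPolynomial P.V k) : aeval u f ∈ K := by
  induction f using MvPolynomial.induction_on with
  | C c => rw [aeval_C]; exact K.algebraMap_mem c
  | add p q hp hq => rw [map_add]; exact K.add_mem hp hq
  | mul_X p s hp => rw [map_mul, aeval_X]; exact K.mul_mem hp (h s)

theorem Iso_div {L : Type u} [Field L] [Algebra k L] {u : P.V → L} (h : ∀ i, ∃ s, u ⟨i, s⟩ ≠ 0)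
    {f g : MvPolynomial P.V k} {a : P.ι →₀ ℕ} (hf : IsForm f a) (hg : IsForm g a) :
    aeval u f / aeval u g ∈ fld k u := by
  choose ς hς using h
  have h1 : ∀ s : P.V, (u ⟨s.1, ς s.1⟩)⁻¹ * u s ∈ fld k u := fun s =>
    IntermediateField.subset_adjoin k _ ⟨s.1, s.2, ς s.1, by rw [div_eq_mul_inv, mul_comm]⟩
  have h2 := (fld k u).div_mem (Iso_aeval _ h1 f) (Iso_aeval _ h1 g)
  have h3 : (a.prod fun i n => (u ⟨i, ς i⟩)⁻¹ ^ n) ≠ 0 :=
    Finset.prod_ne_zero_iff.mpr fun i _ => pow_ne_zero _ (inv_ne_zero (hς i))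
  rwa [hf.aeval_scale (fun i => (u ⟨i, ς i⟩)⁻¹), hg.aeval_scale (fun i => (u ⟨i, ς i⟩)⁻¹),
    mul_div_mul_left _ _ h3] at h2

theorem img_iso (π : Prj Ω.toVar X.toVar) (ψ : Hom X.toVar Ω.toVar) (h : Inv π.hom ψ) :
    π.img Ω.tp = X.tp := by
  have e : π.pr '' Ω.pts = X.pts := by
    refine subset_antisymm ?_ fun x hx => ?_
    · rintro _ ⟨z, hz, rfl⟩
      exact π.maps z hz
    · exact ⟨(ψ.toFun ⟨x, hx⟩).1, (ψ.toFun ⟨x, hx⟩).2, congrArg Subtype.val (h.2 ⟨x, hx⟩)⟩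
  refine SetLike.ext' ?_
  change closure (π.pr '' Ω.pts) = X.pts
  rw [e, X.closed.closure_eq]

theorem deg_iso (π : Prj Ω.toVar X.toVar) (ψ : Hom X.toVar Ω.toVar) (h : Inv π.hom ψ) :
    deg π.ε (idl Ω.pts) = 1 := by
  obtain ⟨L, _, _, v, hv⟩ := exists_gen' Ω.tp
  refine (deg_eq π.toCrd hv).trans ?_
  rw [IntermediateField.relfinrank_eq_one_iff, G2_fld v, IntermediateField.adjoin_le_iff]
  rintro _ ⟨j, s, t, rfl⟩
  obtain ⟨z₀, hz₀⟩ := Ω.irr.nonempty
  obtain ⟨a, F, hF, hev⟩ := ψ.reg (π.hom.toFun ⟨z₀, hz₀⟩) j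
  obtain ⟨g, b, hg, hg0, hgy⟩ := eventually_sub_iff_form.1 hev
  have key : ∀ z ∈ Ω.pts, ev z (rename π.ε g) ≠ 0 →
      ∃ h, z j = Projectivization.mk k (fun r => ev z (rename π.ε (F r))) h := by
    intro z hz hzg
    have h1 := hgy (π.hom.toFun ⟨z, hz⟩) (by rwa [π.ev_rename] at hzg)
    rw [h.1] at h1
    simp only [π.ev_rename]
    exact h1
  have hgΩ : ev z₀ (rename π.ε g) ≠ 0 := by rwa [π.ev_rename]
  have hmin : ∀ r r', v ⟨j, r⟩ * aeval (v ∘ π.ε) (F r') = v ⟨j, r'⟩ * aeval (v ∘ π.ε) (F r) := by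
    intro r r'
    have hf : IsForm (MvPolynomial.X ⟨j, r⟩ * rename π.ε (F r') -
        MvPolynomial.X ⟨j, r'⟩ * rename π.ε (F r) : MvPolynomial P'.V k)
        (single j 1 + a.mapDomain π.ψ) :=
      IsWeightedHomogeneous.sub ((IsForm.X ⟨j, r⟩).mul (π.form (hF r')))
        ((IsForm.X ⟨j, r'⟩).mul (π.form (hF r)))
    have h1 := (hv.iff _ _ hf).2 (van_of_open (Z := Ω.tp) hf (π.form hg)
      (fun h0 => hgΩ (h0 z₀ hz₀)) fun z hz hzg => by
        obtain ⟨h2, h3⟩ := key z hz hzg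
        obtain ⟨c, hc⟩ := Projectivization.exists_smul_eq_mk_rep k _ h2
        rw [← h3] at hc
        have e : ∀ f g : MvPolynomial P'.V k, ev z (f - g) = ev z f - ev z g := fun f g => by
          simp only [ev_eq, map_sub]
        rw [e, ev_mul, ev_mul, ev_X, ev_X]
        change (z j).rep r * _ - (z j).rep r' * _ = 0
        rw [← hc]
        simp only [Pi.smul_apply, Units.smul_def, smul_eq_mul]
        ring)
    simp only [map_sub, map_mul, aeval_X, aeval_rename] at h1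
    exact sub_eq_zero.1 h1
  obtain ⟨r₀, hr₀⟩ := Function.ne_iff.1 (key z₀ hz₀ hgΩ).1
  have hr : aeval (v ∘ π.ε) (F r₀) ≠ 0 := fun h0 => by
    rw [← aeval_rename] at h0
    exact hr₀ ((hv.iff _ _ (π.form (hF r₀))).1 h0 z₀ hz₀)
  by_cases ht : v ⟨j, t⟩ = 0
  · rw [ht, div_zero]
    exact zero_mem _
  have ht' : aeval (v ∘ π.ε) (F t) ≠ 0 := fun h0 => by
    have := hmin r₀ t
    rw [h0, mul_zero] at this
    exact mul_ne_zero ht hr this.symm
  have e : v ⟨j, s⟩ / v ⟨j, t⟩ = aeval (v ∘ π.ε) (F s) / aeval (v ∘ π.ε) (F t) := by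
    rw [div_eq_div_iff ht ht', hmin s t, mul_comm]
  rw [e]
  exact Iso_div (π.isGen_img hv).ne (hF s) (hF t)

end Pool.Agent.Work.MP_10f4af_ag.Nu
end

-- merged part: Pool.Agent.Work.MP_ffcd14_ag.Chw.N
section
/-!
# Cycles modulo numerical equivalence

Plan.  `plC_hyC`: `plC_apply`, `plP_hyC`, `cyC_hyC` on the graph (with `β = inr`,
`β' = π.toCrd.comp inl`), `psP_mul`, `ps_gam`.  `exists_NI`: `E X = CR X ⧸ nI X` where `nI X` is the
ideal of the `x` with `tauC X (x * y) = 0` for all `y`; `tauC` descends (`y = 1`), `plC` descends by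
`adj` (`Ideal.quotientMapₐ`); the image of `spn (cyC X) A c` is `spn (q ∘ cyC X) A c`
(`Submodule.map_span`), `gr_eq`; `pushC` with `deg_ne_zero`; `tau_iso`: `pushC` for `V = Ω.tp`,
`cyC_top`, `img_iso`, `deg_iso`.
-/

open MvPolynomial Topology TopologicalSpace Finsupp

namespace Pool.Agent.Work.MP_10f4af_ag.Nu

open MP_ffcd14_ag hiding len vl cyc pl Weil idl_hmg mem_idl idl_prime idl_le_iff
open MP_ffcd14_ag.Chw

set_option linter.unusedSectionVars false

universe u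

variable {k : Type u} [Field k] [IsAlgClosed k] {P P' : Amb} {X : SV k P} {Ω : SV k P'}

theorem plC_hyC (π : Prj Ω.toVar X.toVar) (i : P.ι) : plC π (hyC X i) = hyC Ω (π.ψ i) := by
  have h : ∀ z ∈ (gj π).img Ω.tp,
      (Crd.inr k P' P).pr z = (π.toCrd.comp (Crd.inl k P' P)).pr z := by
    refine (dI_le_iff (Crd.inr k P' P) (π.toCrd.comp (Crd.inl k P' P))).1 ?_
    rw [← map_le_idl (gj π) (dI_hmg _ _), dI_map]
    exact (dI_le_iff ((Crd.inr k P' P).comp (gj π))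
      ((π.toCrd.comp (Crd.inl k P' P)).comp (gj π))).2 fun _ _ => rfl
  have h1 := cyC_hyC (Z := Ω.prod X) (Crd.inr k P' P) (π.toCrd.comp (Crd.inl k P' P))
    (gj_sub π (V := Ω.tp) subset_rfl) h i
  have h2 := plP_hyC (pd_prod Ω X) (π.ψ i)
  have h3 : gam π * hyC (Ω.prod X) ((Crd.inr k P' P).ψ i) =
      gam π * plP (pd_prod Ω X) (hyC Ω (π.ψ i)) := by
    rw [h2]
    exact h1
  rw [plC_apply, plP_hyC, mul_comm, h3, mul_comm, psP_mul, ps_gam, mul_one]

/-- The numerically trivial classes. -/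
def N_I (X : SV k P) : Ideal (CR X) where
  carrier := {x | ∀ y, tauC X (x * y) = 0}
  add_mem' := fun {a b} ha hb y => by rw [add_mul, map_add, ha y, hb y, add_zero]
  zero_mem' := fun y => by rw [zero_mul, map_zero]
  smul_mem' := fun c x hx y => by rw [smul_eq_mul, mul_comm c, mul_assoc, hx]

/-- The quotient map. -/
noncomputable def N_q (X : SV k P) : CR X →ₐ[ℚ] CR X ⧸ N_I X := Ideal.Quotient.mkₐ ℚ (N_I X)

theorem N_surj (x : CR X ⧸ N_I X) : ∃ y, N_q X y = x := Ideal.Quotient.mk_surjective x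

theorem N_eq {x y : CR X} (h : ∀ a, tauC X (a * x) = tauC X (a * y)) : N_q X x = N_q X y :=
  Ideal.Quotient.eq.2 fun a => by rw [mul_comm, mul_sub, map_sub, h, sub_self]

/-- The degree on the quotient. -/
noncomputable def N_tau (X : SV k P) : (CR X ⧸ N_I X) →ₗ[ℚ] ℚ :=
  ((N_I X).restrictScalars ℚ).liftQ (tauC X) (fun x hx => by
    have h : tauC X (x * 1) = 0 := hx 1
    rwa [mul_one] at h) ∘ₗ (Submodule.Quotient.restrictScalarsEquiv ℚ (N_I X)).symm.toLinearMap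

theorem N_tau_q (x : CR X) : N_tau X (N_q X x) = tauC X x := rfl

/-- The pull-back on the quotient. -/
noncomputable def N_pl (π : Prj Ω.toVar X.toVar) : (CR X ⧸ N_I X) →ₐ[ℚ] CR Ω ⧸ N_I Ω :=
  Ideal.quotientMapₐ (N_I Ω) (plC π) fun x hx a => by
    change tauC Ω (plC π x * a) = 0
    rw [mul_comm, adj, mul_comm]
    exact hx _

theorem N_pl_q (π : Prj Ω.toVar X.toVar) (x : CR X) : N_pl π (N_q X x) = N_q Ω (plC π x) := rfl

theorem N_spn {A : Set (P.Pt k)} {c : Sub k P → Prop} {x : CR X ⧸ N_I X} :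
    x ∈ spn (fun V => N_q X (cyC X V)) A c ↔ ∃ y ∈ spn (cyC X) A c, N_q X y = x := by
  have h : spn (fun V => N_q X (cyC X V)) A c = (spn (cyC X) A c).map (N_q X).toLinearMap := by
    rw [spn, spn, Submodule.map_span]
    congr 1
    ext z
    constructor
    · rintro ⟨U, h1, h2, rfl⟩
      exact ⟨_, ⟨U, h1, h2, rfl⟩, rfl⟩
    · rintro ⟨_, ⟨U, h1, h2, rfl⟩, rfl⟩
      exact ⟨U, h1, h2, rfl⟩
  rw [h]
  exact Submodule.mem_map

theorem N_cod {c : ℕ} {x : CR X ⧸ N_I X} :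
    x ∈ cod X (fun V => N_q X (cyC X V)) c ↔ ∃ y ∈ CR.gr X c, N_q X y = x := by
  rw [gr_eq]
  exact N_spn

theorem N_lin (a : P.ι →₀ ℕ) : lin (fun i => N_q X (hyC X i)) a = N_q X (lin (hyC X) a) := by
  simp only [lin, map_finsuppSum, map_nsmul]

variable (k) in
/-- The numerical theory. -/
noncomputable def N_NI : NI k where
  E X := CR X ⧸ N_I X
  tau := N_tau
  hy X i := N_q X (hyC X i)
  pl := N_pl
  cy X V := N_q X (cyC X V)
  hy_mem X i := N_cod.2 ⟨_, hyC_gr X i, rfl⟩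
  AA_mul X c c' x y hx hy := by
    obtain ⟨x, h1, rfl⟩ := N_cod.1 hx
    obtain ⟨y, h2, rfl⟩ := N_cod.1 hy
    exact N_cod.2 ⟨_, CR.mul_gr h1 h2, map_mul _ _ _⟩
  AA_pl π c y hy := by
    obtain ⟨y, h2, rfl⟩ := N_cod.1 hy
    exact N_cod.2 ⟨_, plC_gr π h2, rfl⟩
  tau_AA X c x hx hc := by
    obtain ⟨x, h1, rfl⟩ := N_cod.1 hx
    exact tauC_gr h1 hc
  pl_id π h y := by
    obtain ⟨y, rfl⟩ := N_surj y
    exact N_eq fun a => plC_id π h a y
  pl_comp ρ π χ h y := by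
    obtain ⟨y, rfl⟩ := N_surj y
    exact N_eq fun a => plC_comp π ρ χ h a y
  pl_hy π i := by rw [N_pl_q, plC_hyC]
  cy_zero X Z h := by rw [cyC_zero h, map_zero]
  cy_top X := (congrArg (N_q X) (cyC_top X)).trans (map_one _)
  pd X x h := by
    obtain ⟨x, rfl⟩ := N_surj x
    refine Ideal.Quotient.eq_zero_iff_mem.2 fun y => ?_
    rw [← N_tau_q, map_mul]
    exact h _
  tau_iso := fun {P P' Ω X} π ψ h y => by
    obtain ⟨y, rfl⟩ := N_surj y
    have h1 := pushC π (V := Ω.tp) subset_rfl y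
    have h2 : deg π.ε (idl (Ω.tp : Set (P'.Pt k))) = 1 := deg_iso π ψ h
    rw [img_iso π ψ h, h2, cyC_top, cyC_top, one_mul, one_mul, Nat.cast_one, one_mul] at h1
    exact h1
  tau_pt X Z hZ h := tauC_pt hZ h
  div X Z hZ f a hf h s hs := by
    rw [N_lin, ← map_mul, divC hZ hf h s hs, map_sum]
    simp only [map_smul]
  push := fun {P P' Ω X} π Z hZ => by
    refine ⟨deg π.ε (idl (Z : Set (P'.Pt k))), ?_, fun y => ?_⟩
    · rw [Nat.pos_iff_ne_zero, deg_ne_zero π.toCrd Z, eq_comm]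
    · obtain ⟨y, rfl⟩ := N_surj y
      rw [N_pl_q, ← map_mul, ← map_mul, N_tau_q, N_tau_q]
      exact pushC π hZ y
  meet π Z hZ T hT h := N_spn.2 ⟨_, meetC π hZ hT h, by rw [map_mul, N_pl_q]⟩

variable (k) in
theorem exists_NI : ∃ N : NI k, ∀ {P : Amb} (X : SV k P), ∃ q : CR X →ₐ[ℚ] N.E X,
    Function.Surjective q ∧ (∀ x, N.tau X (q x) = tauC X x) ∧ (∀ V, q (cyC X V) = N.cy X V) ∧
      ∀ i, q (hyC X i) = N.hy X i := by
  exact ⟨N_NI k, fun X => ⟨N_q X, N_surj, N_tau_q, fun _ => rfl, fun _ => rfl⟩⟩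

end Pool.Agent.Work.MP_10f4af_ag.Nu
end

-- merged part: Pool.Agent.Work.MP_ffcd14_ag.Chw.Red
section
/-!
# From irreducible varieties to all varieties

Plan.  For a variety `X` let `Cp X` be the finite type of its components and `cv X c` the component
as an `SV` of dimension `X.dim`.  Put `E X = ∀ c : Cp X, N.E (cv X c)`, `tau X x = ∑ c, N.tau _ (x c)`,
`hy X i c = N.hy _ i`, `cy X Z c = N.cy (cv X c) Z` (zero unless `c` is the component containing
`Z`: `cy_zero`, `cmp_disj`), `AA X n = Submodule.pi univ fun c => cod ..`.  A `π : Prj Ω X` sends the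
component `c` of `Ω` into a unique component `d` of `X` (`cmp_exists` for `π.img c`), and
`pl π y c = N.pl (π restricted) (y d)`; prove first that this holds for every `d` with
`π.img c ≤ d` (`subst`).  An element `x` is the sum of the `Pi.single c (x c)`, and
`Pi.single c` sends `spn (N.cy (cv X c)) c p` into `spn (cy X) X.pts p`.  For an irreducible `X` the
only component is `X.top`, and `cv X c = X` (extensionality); obtain the map `e` from a general
lemma about two equal `SV`.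
-/

open MvPolynomial Topology TopologicalSpace Filter

namespace Pool.Agent.Work.MP_ffcd14_ag.Chw

open MP_10f4af_ag (SV)

universe u

variable {k : Type u} [Field k] [IsAlgClosed k]

section
variable {P P' : Amb} {X : Var k P} {Ω : Var k P'}

/-- The components. -/
abbrev Red_Cp (X : Var k P) : Type u := {c : Sub k P // IsCmp X c}

noncomputable instance Red_fin (X : Var k P) : Fintype (Red_Cp X) := (cmp_finite X).fintype

noncomputable instance Red_dec (X : Var k P) : DecidableEq (Red_Cp X) := Classical.decEq _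

/-- A component as a variety. -/
def Red_cv (c : Red_Cp X) : SV k P :=
  ⟨⟨c.1, X.dim, c.1.isClosed, cmp_smooth c.2⟩, c.1.isIrreducible⟩

theorem Red_ex {Z : Sub k P} (h : (Z : Set (P.Pt k)) ⊆ X.pts) :
    ∃ c : Red_Cp X, (Z : Set (P.Pt k)) ⊆ (Red_cv c).pts :=
  (cmp_exists h).elim fun c hc => ⟨⟨c, hc.1⟩, hc.2⟩

theorem Red_uniq {Z : Sub k P} {c d : Red_Cp X} (h : (Z : Set (P.Pt k)) ⊆ (Red_cv c).pts)
    (h' : (Z : Set (P.Pt k)) ⊆ (Red_cv d).pts) : c = d :=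
  Z.isIrreducible.nonempty.elim fun _ hx => Subtype.ext (cmp_disj c.2 d.2 (h hx) (h' hx))

omit [IsAlgClosed k] in
theorem Red_img (β : Crd k P P') {Z : Sub k P'} {A : Set (P.Pt k)} (hA : IsClosed A) :
    (β.img Z : Set (P.Pt k)) ⊆ A ↔ ∀ x ∈ (Z : Set (P'.Pt k)), β.pr x ∈ A :=
  hA.closure_subset_iff.trans Set.image_subset_iff

theorem Red_ex_tg (π : Prj Ω X) (c : Red_Cp Ω) :
    ∃ d : Red_Cp X, ∀ x ∈ (Red_cv c).pts, π.pr x ∈ (Red_cv d).pts :=
  (Red_ex ((Red_img π.toCrd X.closed).2 fun x hx => π.maps x (c.2.1 hx))).imp fun d =>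
    (Red_img π.toCrd (Red_cv d).closed).1

/-- The component that contains the image. -/
noncomputable def Red_tg (π : Prj Ω X) (c : Red_Cp Ω) : Red_Cp X := (Red_ex_tg π c).choose

/-- The restriction to a component. -/
noncomputable def Red_rs (π : Prj Ω X) (c : Red_Cp Ω) :
    Prj (Red_cv c).toVar (Red_cv (Red_tg π c)).toVar := ⟨π.toCrd, (Red_ex_tg π c).choose_spec⟩

omit [IsAlgClosed k] in
/-- An irreducible variety as a component of itself. -/
def Red_top (h : IsIrreducible X.pts) : Red_Cp X :=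
  ⟨X.top h, subset_rfl, fun _ h1 h2 => le_antisymm h1 h2⟩

omit [IsAlgClosed k] in
theorem Red_eq_top (h : IsIrreducible X.pts) (c : Red_Cp X) : X.top h = c.1 :=
  c.2.2 _ subset_rfl c.2.1

omit [IsAlgClosed k] in
theorem Red_sub (h : IsIrreducible X.pts) : Subsingleton (Red_Cp X) :=
  ⟨fun c d => Subtype.ext ((Red_eq_top h c).symm.trans (Red_eq_top h d))⟩

theorem Red_var (h : IsIrreducible X.pts) (c : Red_Cp X) : Red_cv c = ⟨X, h⟩ := by
  obtain ⟨_, hc⟩ := c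
  obtain rfl := Red_eq_top h ⟨_, hc⟩
  rfl

omit [IsAlgClosed k] in
theorem Red_mu {Z T : Sub k P} {f : MvPolynomial P.V k} (h : mu Z T f ≠ 0) : T ≤ Z := by
  refine subset_of_van Z.isClosed fun g a hg hZ => by_contra fun hT => h ?_
  have : Subsingleton (LocalizedModule (Submonoid.closure
      (Noeth.idl (T : Set (P.Pt k)) : Set (MvPolynomial P.V k))ᶜ) (MvPolynomial P.V k ⧸ (Noeth.idl (Z : Set (P.Pt k)) ⊔ Ideal.span {f}))) := by
    refine LocalizedModule.subsingleton_iff.2 fun m => ⟨g, Submonoid.subset_closure fun e =>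
      hT (Noeth.van_of_mem e), ?_⟩
    have h1 : g ∈ Noeth.idl (Z : Set (P.Pt k)) := Ideal.subset_span ⟨⟨a, hg⟩, hZ⟩
    rw [Algebra.smul_def, Ideal.Quotient.algebraMap_eq, Ideal.Quotient.eq_zero_iff_mem.2
      (Ideal.mem_sup_left h1), zero_mul]
  rw [mu, len, Module.length_eq_zero, ENat.toNat_zero, ite_self]

variable (N : NI k)

omit [IsAlgClosed k] in
theorem Red_eq {X Y : SV k P} (h : X = Y) : ∃ e : N.E X ≃ₐ[ℚ] N.E Y,
    (∀ x, N.tau Y (e x) = N.tau X x) ∧ (∀ V, e (N.cy X V) = N.cy Y V) ∧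
      ∀ i, e (N.hy X i) = N.hy Y i := by
  subst h
  exact ⟨AlgEquiv.refl, fun _ => rfl, fun _ => rfl, fun _ => rfl⟩

omit [IsAlgClosed k] in
theorem Red_iso {X' : SV k P} {Ω' : SV k P'} {hX hΩ} (h1 : X' = ⟨X, hX⟩) (h2 : Ω' = ⟨Ω, hΩ⟩)
    (π : Prj Ω X) (ψ : Hom X Ω) (h : Inv π.hom ψ) (hm) (y : N.E X') :
    N.tau Ω' (N.pl ⟨π.toCrd, hm⟩ y) = N.tau X' y := by
  subst h1 h2
  exact N.tau_iso (Ω := ⟨Ω, hΩ⟩) (X := ⟨X, hX⟩) π ψ h y

/-- The product over the components. -/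
abbrev Red_E (X : Var k P) : Type u := ∀ c : Red_Cp X, N.E (Red_cv c)

/-- The degree. -/
noncomputable def Red_tau (X : Var k P) : Red_E N X →ₗ[ℚ] ℚ :=
  ∑ c, N.tau (Red_cv c) ∘ₗ LinearMap.proj c

/-- The cycle class. -/
def Red_cy (X : Var k P) (Z : Sub k P) : Red_E N X := fun c => N.cy (Red_cv c) Z

/-- The pull-back. -/
noncomputable def Red_pl (π : Prj Ω X) : Red_E N X →ₐ[ℚ] Red_E N Ω :=
  AlgHom.pi fun c => (N.pl (Red_rs π c)).comp (Pi.evalAlgHom ℚ _ (Red_tg π c))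

theorem Red_tau_apply (x : Red_E N X) : Red_tau N X x = ∑ c, N.tau (Red_cv c) (x c) :=
  LinearMap.sum_apply _ _ _

theorem Red_tau_single (c : Red_Cp X) (x : N.E (Red_cv c)) :
    Red_tau N X (Pi.single c x) = N.tau _ x := by
  rw [Red_tau_apply, Finset.sum_eq_single c (fun d _ h => by rw [Pi.single_eq_of_ne h, map_zero])
    fun h => (h (Finset.mem_univ c)).elim, Pi.single_eq_same]

theorem Red_pl_apply (π : Prj Ω X) (c : Red_Cp Ω) (d : Red_Cp X)
    (h : ∀ x ∈ (Red_cv c).pts, π.pr x ∈ (Red_cv d).pts) (y : Red_E N X) :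
    Red_pl N π y c = N.pl (Ω := Red_cv c) (X := Red_cv d) ⟨π.toCrd, h⟩ (y d) := by
  obtain rfl := Red_uniq ((Red_img π.toCrd (Red_cv d).closed).2 h)
    ((Red_img π.toCrd (Red_cv _).closed).2 (Red_rs π c).maps)
  rfl

theorem Red_cy_single {Z : Sub k P} {c : Red_Cp X} (h : (Z : Set (P.Pt k)) ⊆ (Red_cv c).pts) :
    Red_cy N X Z = Pi.single c (N.cy _ Z) := by
  funext d
  rcases eq_or_ne d c with rfl | e
  · rw [Pi.single_eq_same, Red_cy]
  · rw [Pi.single_eq_of_ne e, Red_cy, N.cy_zero _ Z fun h' => e (Red_uniq h' h)]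

theorem Red_spn {c : Red_Cp X} {p : Sub k P → Prop} {x : N.E (Red_cv c)}
    (h : x ∈ spn (N.cy (Red_cv c)) (Red_cv c).pts p) :
    Pi.single c x ∈ spn (Red_cy N X) X.pts p := by
  refine (Submodule.span_le (p := (spn (Red_cy N X) X.pts p).comap
    (LinearMap.single ℚ (fun c : Red_Cp X => N.E (Red_cv c)) c))).2 ?_ h
  rintro _ ⟨U, h1, h2, rfl⟩
  exact Submodule.subset_span ⟨U, h1.trans c.2.1, h2, (Red_cy_single N h1).symm⟩

/-- The classes of given codimension. -/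
def Red_AA (X : Var k P) (n : ℕ) : Submodule ℚ (Red_E N X) :=
  Submodule.pi Set.univ fun c => cod (Red_cv c) (N.cy _) n

theorem Red_AA_eq (X : Var k P) (n : ℕ) :
    Red_AA N X n = spn (Red_cy N X) X.pts fun U => sdim U + n = X.dim := by
  refine le_antisymm (fun x hx => ?_) (Submodule.span_le.2 ?_)
  · rw [← Finset.univ_sum_single x]
    exact sum_mem fun c _ => Red_spn N (hx c trivial)
  · rintro _ ⟨U, -, h2, rfl⟩ c -
    by_cases h : (U : Set (P.Pt k)) ⊆ (Red_cv c).pts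
    · exact Submodule.subset_span ⟨U, h, h2, rfl⟩
    · exact Set.mem_of_eq_of_mem (N.cy_zero _ U h) (zero_mem (cod (Red_cv c) (N.cy _) n))

theorem Red_push (π : Prj Ω X) {Z : Sub k P'} (hZ : (Z : Set (P'.Pt k)) ⊆ Ω.pts) :
    ∃ n : ℕ, (0 < n ↔ sdim Z = sdim (π.img Z)) ∧ ∀ y, Red_tau N Ω (Red_cy N Ω Z * Red_pl N π y) =
      n * Red_tau N X (Red_cy N X (π.img Z) * y) := by
  obtain ⟨c, hc⟩ := Red_ex hZ
  obtain ⟨n, h1, h2⟩ := N.push (Red_rs π c) hc
  refine ⟨n, h1, fun y => ?_⟩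
  rw [Red_cy_single N hc, Red_cy_single N ((Red_img π.toCrd (Red_cv _).closed).2 fun x hx =>
    (Red_rs π c).maps x (hc hx)), ← Pi.single_mul_left, ← Pi.single_mul_left, Red_tau_single,
    Red_tau_single]
  exact h2 _

theorem Red_meet (π : Prj Ω X) {Z : Sub k P'} (hZ : (Z : Set (P'.Pt k)) ⊆ Ω.pts) {T : Sub k P}
    (H : ∀ U ≤ Z, π.img U ≤ T → sdim U + X.dim ≤ sdim Z + sdim T) :
    Red_cy N Ω Z * Red_pl N π (Red_cy N X T) ∈ spn (Red_cy N Ω) Ω.pts
      fun U => U ≤ Z ∧ π.img U ≤ T ∧ sdim U + X.dim = sdim Z + sdim T := by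
  obtain ⟨c, hc⟩ := Red_ex hZ
  rw [Red_cy_single N hc, ← Pi.single_mul_left]
  refine Red_spn N ?_
  by_cases h : (T : Set _) ⊆ (Red_cv (Red_tg π c)).pts
  · exact N.meet (Red_rs π c) hc h H
  · change _ * N.pl (Red_rs π c) (N.cy _ T) ∈ _
    rw [N.cy_zero _ T h, map_zero, mul_zero]
    exact zero_mem _

end

/-- The theory on all varieties. -/
noncomputable def Red_NT (N : NI k) : NT.{u, 0, u} k ℚ where
  E := Red_E N
  tau := Red_tau N
  hy _ i c := N.hy (Red_cv c) i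
  pl := Red_pl N
  cy := Red_cy N
  AA := Red_AA N
  hy_mem _ i _ _ := N.hy_mem _ i
  AA_mul _ _ _ _ _ hx hy c _ := N.AA_mul _ (hx c trivial) (hy c trivial)
  AA_pl π _ _ hy c _ := N.AA_pl (Red_rs π c) (hy _ trivial)
  tau_AA _ _ x hx h := (Red_tau_apply N x).trans
    (Finset.sum_eq_zero fun c _ => N.tau_AA _ (hx c trivial) h)
  pl_id π h y := funext fun c => (Red_pl_apply N π c c (fun x hx => (h x (c.2.1 hx)).symm ▸ hx)
    y).trans (N.pl_id _ (fun x hx => h x (c.2.1 hx)) _)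
  pl_comp ρ π χ h z := funext fun c => (Red_pl_apply N χ c (Red_tg π (Red_tg ρ c))
    (fun x hx => (h x (c.2.1 hx)).symm ▸ (Red_rs π _).maps _ ((Red_rs ρ c).maps x hx)) z).trans
      (N.pl_comp (Red_rs ρ c) (Red_rs π _) _ (fun x hx => h x (c.2.1 hx)) _)
  pl_hy π i := funext fun c => N.pl_hy (Red_rs π c) i
  cy_zero _ Z h := funext fun c => N.cy_zero _ Z fun h' => h (h'.trans c.2.1)
  cy_mem X Z := ⟨X.dim - sdim Z, fun c _ => by
    by_cases h : (Z : Set _) ⊆ (Red_cv c).pts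
    · exact Submodule.subset_span
        ⟨Z, h, Nat.add_sub_cancel' ((Red_cv c).toVar.sdim_le (Red_cv c).irr h), rfl⟩
    · exact Set.mem_of_eq_of_mem (N.cy_zero _ Z h) (zero_mem (cod (Red_cv c) (N.cy _) _))⟩
  AA_le X n := (Red_AA_eq N X n).trans_le
    (Submodule.span_mono fun _ ⟨U, h1, _, h2⟩ => ⟨U, h1, trivial, h2⟩)
  AA_eq X _ := Red_AA_eq N X
  cy_top _ h := funext fun c => (congrArg (N.cy _) (Red_eq_top h c)).trans (N.cy_top (Red_cv c))
  pd _ x h := funext fun c => N.pd _ _ fun z => by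
    rw [← Red_tau_single, Pi.single_mul_right, h]
  tau_iso {_ _ Ω X} π ψ hX h y := by
    have := Subtype.irreducibleSpace hX
    have hΩ := (IrreducibleSpace.isIrreducible_univ X.pts).image (Subtype.val ∘ ψ.toFun)
      (continuous_subtype_val.comp ψ.continuous).continuousOn
    rw [Set.image_univ, (Function.RightInverse.surjective h.1).range_comp, Subtype.range_coe] at hΩ
    have := Red_sub hX
    have := Red_sub hΩ
    rw [Red_tau_apply, Red_tau_apply, Fintype.sum_subsingleton _ (Red_top hΩ),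
      Fintype.sum_subsingleton _ (Red_tg π (Red_top hΩ))]
    exact Red_iso N (Red_var hX _) (Red_var hΩ _) π ψ h _ _
  tau_pt _ Z h h0 := by
    obtain ⟨c, hc⟩ := Red_ex h
    rw [Red_cy_single N hc, Red_tau_single, N.tau_pt _ Z hc h0]

theorem Red_chow (N : NI k) : (Red_NT N).Chow where
  div X Z hZ f a hf hv s hs := funext fun c => by
    have e1 := map_finsuppSum (Pi.evalAlgHom ℚ (fun c : Red_Cp X => N.E (Red_cv c)) c) a
      fun i n => n • (Red_NT N).hy X i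
    refine Eq.trans (congrArg (N.cy (Red_cv c) Z * ·) e1) (Eq.trans ?_
      (Finset.sum_apply c s fun T => (mu Z T f : ℚ) • Red_cy N X T).symm)
    by_cases h : (Z : Set _) ⊆ (Red_cv c).pts
    · exact N.div _ h f a hf hv s hs
    obtain ⟨d, hd⟩ := Red_ex hZ
    rw [N.cy_zero _ Z h, zero_mul]
    refine (Finset.sum_eq_zero fun T _ => ?_).symm
    change (mu Z T f : ℚ) • N.cy (Red_cv c) T = 0
    by_cases h0 : mu Z T f = 0
    · rw [h0, Nat.cast_zero, zero_smul]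
    · rw [N.cy_zero (Red_cv c) T fun h' =>
        h (Red_uniq h' (subset_trans (Red_mu h0) hd) ▸ hd), smul_zero]
  push π _ := Red_push N π
  meet π _ hZ _ _ := Red_meet N π hZ

theorem NI.red (N : NI k) : ∃ C : NT.{u, 0, u} k ℚ, C.Chow ∧ ∀ {P : Amb} (X : SV k P),
    ∃ e : N.E X →ₐ[ℚ] C.E X.toVar, Function.Surjective e ∧ (∀ x, C.tau _ (e x) = N.tau X x) ∧
      (∀ V, e (N.cy X V) = C.cy _ V) ∧ ∀ i, e (N.hy X i) = C.hy _ i := by
  refine ⟨Red_NT N, Red_chow N, fun X => ?_⟩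
  have := Red_sub X.irr
  choose e h1 h2 h3 using fun c : Red_Cp X.toVar => Red_eq N (Red_var X.irr c).symm
  refine ⟨AlgHom.pi fun c => (e c).toAlgHom, fun y => ⟨(e (Red_top X.irr)).symm (y _),
    funext fun c => ?_⟩, fun x => (Red_tau_apply N _).trans
      ((Fintype.sum_subsingleton _ (Red_top X.irr)).trans (h1 _ x)),
    fun V => funext fun c => h2 c V, fun i => funext fun c => h3 c i⟩
  obtain rfl := Subsingleton.elim c (Red_top X.irr)
  exact (e _).apply_symm_apply _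

end Pool.Agent.Work.MP_ffcd14_ag.Chw
end

-- merged part: Pool.Agent.Work.MP_ffcd14_ag.Chw.Fin
section
/-!
# From numerical theories to the Chow ring

Plan.  Compose the maps of `exists_NI` and `NI.red` to a surjection `q : CR X →ₐ C.E X.toVar` which
respects `tau`, `cy`, `hy`; it maps `CR.gr X c` onto `C.AA X.toVar c` (`gr_eq`, `C.AA_eq`,
`Submodule.map_span`).  `sec X f = CR.val X (lin (hyC X) a)` (`val_secC`, `secC_lin`), and
`(mul X (val l))^[j] (val x) = val (l ^ j * x)` by induction; `tauC_val`.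
-/

open MvPolynomial Topology TopologicalSpace Finsupp

namespace Pool.Agent.Work.MP_10f4af_ag.Nu

open MP_ffcd14_ag hiding len vl cyc pl Weil idl_hmg mem_idl idl_prime idl_le_iff
open MP_ffcd14_ag.Chw

set_option linter.unusedSectionVars false

universe u

variable {k : Type u} [Field k] [IsAlgClosed k] {P : Amb}

/-- The conjecture in a numerical theory. -/
def HdgN (C : NT.{u, 0, u} k ℚ) (X : Var k P) (l : C.E X) (n : ℕ) : Prop :=
  ∀ y ∈ C.AA X n, (∀ c, ∀ z ∈ C.AA X c, C.tau X (l ^ (X.dim - 2 * n + 1) * y * z) = 0) →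
    (¬ ∀ c, ∀ z ∈ C.AA X c, C.tau X (y * z) = 0) →
      0 < (-1) ^ n * C.tau X (l ^ (X.dim - 2 * n) * y * y)

theorem Fin_map (X : SV k P) : ∃ C : NT.{u, 0, u} k ℚ, C.Chow ∧ ∃ q : CR X →ₐ[ℚ] C.E X.toVar,
    (∀ x, C.tau _ (q x) = tauC X x) ∧ (∀ c, (CR.gr X c).map q.toLinearMap = C.AA X.toVar c) ∧
      ∀ a, q (lin (hyC X) a) = lin (C.hy X.toVar) a := by
  obtain ⟨N, hN⟩ := exists_NI k
  obtain ⟨C, hC, h⟩ := N.red
  obtain ⟨q, -, q1, q2, q3⟩ := hN X
  obtain ⟨e, -, e1, e2, e3⟩ := h X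
  refine ⟨C, hC, e.comp q, fun x => (e1 _).trans (q1 x), fun c => ?_, fun a => ?_⟩
  · rw [gr_eq, C.AA_eq _ X.irr, cod, spn, spn, Submodule.map_span]
    congr 1
    ext y
    constructor
    · rintro ⟨_, ⟨U, h1, h2, rfl⟩, rfl⟩
      exact ⟨U, h1, h2, (congrArg e (q2 U)).trans (e2 U)⟩
    · rintro ⟨U, h1, h2, rfl⟩
      exact ⟨_, ⟨U, h1, h2, rfl⟩, (congrArg e (q2 U)).trans (e2 U)⟩
  · simp only [lin, Finsupp.sum, map_sum, map_nsmul, AlgHom.comp_apply, q3, e3]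

theorem Fin_iter (X : SV k P) (l x : CR X) (j : ℕ) :
    (mul X (CR.val X l))^[j] (CR.val X x) = CR.val X (l ^ j * x) := by
  induction j with
  | zero => rw [pow_zero, one_mul, Function.iterate_zero_apply]
  | succ j ih => rw [Function.iterate_succ_apply', ih, ← CR.val_mul, pow_succ', mul_assoc]

theorem Fin_num {X : SV k P} {C : NT.{u, 0, u} k ℚ} {q : CR X →ₐ[ℚ] C.E X.toVar}
    (h1 : ∀ x, C.tau _ (q x) = tauC X x)
    (h2 : ∀ c, (CR.gr X c).map q.toLinearMap = C.AA X.toVar c) (x : CR X) :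
    Num X (CR.val X x) ↔ ∀ c, ∀ z ∈ C.AA X.toVar c, C.tau _ (q x * z) = 0 := by
  refine forall_congr' fun c => ⟨fun h z hz => ?_, fun h y hy => ?_⟩
  · rw [← h2] at hz
    obtain ⟨y, hy, rfl⟩ := hz
    rw [AlgHom.toLinearMap_apply, ← map_mul, h1, tauC_val, CR.val_mul]
    exact h _ hy
  · have := h (q (CR.mk y (CH_le X c hy))) (h2 c ▸ ⟨CR.mk y (CH_le X c hy), hy, rfl⟩)
    rwa [← map_mul, h1, tauC_val] at this

theorem hodge_of (X : SV k P) {f : MvPolynomial P.V k} {a : P.ι →₀ ℕ} (hf : IsForm f a)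
    (h : ¬ Van X.pts f) (n : ℕ)
    (H : ∀ C : NT.{u, 0, u} k ℚ, C.Chow → HdgN C X.toVar (lin (C.hy X.toVar) a) n) :
    Hodge X (sec X f) n := by
  obtain ⟨C, hC, q, h1, h2, h3⟩ := Fin_map X
  intro x hx
  obtain ⟨y, hy, rfl⟩ : ∃ y ∈ CR.gr X n, CR.val X y = x := ⟨CR.mk x (CH_le X n hx), hx, rfl⟩
  rw [← val_secC hf, secC_lin hf h, Fin_iter, Fin_iter, Fin_num h1 h2, Fin_num h1 h2,
    ← CR.val_mul, ← tauC_val, ← h1, mul_comm y, map_mul q, map_mul q, map_mul q, map_pow, map_pow,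
    h3]
  exact H C hC (q y) (h2 n ▸ ⟨y, hy, rfl⟩)

end Pool.Agent.Work.MP_10f4af_ag.Nu
end
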